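import Mathlib

/-!
# Nearest point projections and Hausdorff measure
-/

set_option linter.unusedSectionVars false

namespace MP_e9cb08

open MeasureTheory Set Module
open scoped InnerProductSpace RealInnerProductSpace ENNReal

variable {V : Type*} [NormedAddCommGroup V] [InnerProductSpace ℝ V] [FiniteDimensional ℝ V]
  [MeasurableSpace V] [BorelSpace V]

/-- the variational characterisation of the nearest point -/
def IsNP (K : Set V) (x v : V) : Prop := v ∈ K ∧ ∀ w ∈ K, ⟪x - v, w - v⟫_ℝ ≤ 0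

open Classical in
/-- the nearest point projection -/
noncomputable def npp (K : Set V) (x : V) : V :=
  if h : ∃ v, IsNP K x v then h.choose else x

lemma exists_isNP {K : Set V} (hne : K.Nonempty) (hcl : IsClosed K) (hconv : Convex ℝ K) (x : V) :
    ∃ v, IsNP K x v := by
  obtain ⟨v, hv, hmin⟩ := exists_norm_eq_iInf_of_complete_convex hne hcl.isComplete hconv x
  exact ⟨v, hv, (norm_eq_iInf_iff_real_inner_le_zero hconv hv).1 hmin⟩

lemma npp_spec {K : Set V} (hne : K.Nonempty) (hcl : IsClosed K) (hconv : Convex ℝ K) (x : V) :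
    IsNP K x (npp K x) := by
  have h := exists_isNP hne hcl hconv x
  rw [npp, dif_pos h]
  exact h.choose_spec

lemma isNP_lip {K : Set V} {x y p q : V} (hp : IsNP K x p) (hq : IsNP K y q) :
    ‖p - q‖ ≤ ‖x - y‖ := by
  have h1 := hp.2 q hq.1
  have h2 := hq.2 p hp.1
  have h3 : ‖p - q‖ ^ 2 ≤ ⟪x - y, p - q⟫_ℝ := by
    have e1 : ⟪x - p, q - p⟫_ℝ + ⟪y - q, p - q⟫_ℝ = ‖p - q‖ ^ 2 - ⟪x - y, p - q⟫_ℝ := by
      rw [← real_inner_self_eq_norm_sq]
      simp only [inner_sub_left, inner_sub_right]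
      rw [real_inner_comm p q]
      ring
    linarith
  have h4 := real_inner_le_norm (x - y) (p - q)
  by_contra hlt
  push Not at hlt
  have h5 : 0 ≤ ‖x - y‖ := norm_nonneg _
  nlinarith

lemma isNP_unique {K : Set V} {x p q : V} (hp : IsNP K x p) (hq : IsNP K x q) : p = q := by
  have := isNP_lip hp hq
  rw [sub_self, norm_zero] at this
  exact sub_eq_zero.1 (norm_le_zero_iff.1 this)

lemma isNP_self {K : Set V} {x : V} (hx : x ∈ K) : IsNP K x x := ⟨hx, by simp⟩

lemma isNP_dist_le {K : Set V} {x p w : V} (hp : IsNP K x p) (hw : w ∈ K) :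
    ‖x - p‖ ≤ ‖x - w‖ := by
  have h1 := hp.2 w hw
  have h2 : ‖x - p‖ ^ 2 ≤ ‖x - w‖ ^ 2 := by
    have a1 : ‖x - w‖ ^ 2 = ‖(x - p) - (w - p)‖ ^ 2 := by
      congr 2
      abel
    rw [a1, norm_sub_sq_real (x - p) (w - p)]
    have := sq_nonneg ‖w - p‖
    linarith
  exact (sq_le_sq₀ (norm_nonneg _) (norm_nonneg _)).1 h2

lemma isNP_ray {K : Set V} {x p : V} (hp : IsNP K x p) {s : ℝ} (hs : 0 ≤ s) :
    IsNP K (p + s • (x - p)) p := by
  refine ⟨hp.1, ?_⟩
  intro w hw
  rw [add_sub_cancel_left, inner_smul_left]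
  have := hp.2 w hw
  simp only [conj_trivial]
  exact mul_nonpos_of_nonneg_of_nonpos hs this

lemma npp_lipschitz {K : Set V} (hne : K.Nonempty) (hcl : IsClosed K) (hconv : Convex ℝ K) :
    LipschitzWith 1 (npp K) := by
  apply LipschitzWith.of_dist_le_mul
  intro x y
  rw [dist_eq_norm, dist_eq_norm]
  simpa using isNP_lip (npp_spec hne hcl hconv x) (npp_spec hne hcl hconv y)

/-- a preconnected set meeting `s` and its complement meets the frontier -/
lemma preconnected_meets_frontier {t s : Set V} (ht : IsPreconnected t)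
    (h1 : (t ∩ s).Nonempty) (h2 : (t ∩ sᶜ).Nonempty) : (t ∩ frontier s).Nonempty := by
  by_contra hcon
  rw [not_nonempty_iff_eq_empty] at hcon
  have hnot : ∀ z ∈ t, z ∉ frontier s := by
    intro z hz hzf
    have : z ∈ t ∩ frontier s := ⟨hz, hzf⟩
    rw [hcon] at this
    exact this
  have hcov : t ⊆ interior s ∪ (closure s)ᶜ := by
    intro z hz
    by_cases hzc : z ∈ closure s
    · left
      by_contra hzi
      exact hnot z hz ⟨hzc, hzi⟩
    · right; exact hzc
  obtain ⟨x, hxt, hxs⟩ := h1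
  obtain ⟨y, hyt, hys⟩ := h2
  have hx : x ∈ interior s := by
    by_contra hxi
    exact hnot x hxt ⟨subset_closure hxs, hxi⟩
  have hy : y ∈ (closure s)ᶜ := by
    intro hyc
    exact hnot y hyt ⟨hyc, fun hyi => hys (interior_subset hyi)⟩
  obtain ⟨z, _, hz1, hz2⟩ := ht _ _ isOpen_interior isClosed_closure.isOpen_compl hcov
    ⟨x, hxt, hx⟩ ⟨y, hyt, hy⟩
  exact hz2 (interior_subset_closure hz1)

lemma frontier_subset_image {K D : Set V} (hne : K.Nonempty) (hcl : IsClosed K)
    (hconv : Convex ℝ K) (hKD : K ⊆ D) (hD : Bornology.IsBounded D) :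
    frontier K ⊆ npp K '' frontier D := by
  have hfD : IsCompact (frontier D) := by
    apply Metric.isCompact_of_isClosed_isBounded isClosed_frontier
    exact hD.closure.subset frontier_subset_closure
  have hT : IsCompact (npp K '' frontier D) :=
    hfD.image (npp_lipschitz hne hcl hconv).continuous
  have hA : ∀ x, x ∉ K → npp K x ∈ npp K '' frontier D := by
    intro x hx
    set q := npp K x with hq
    have hqs := npp_spec hne hcl hconv x
    rw [← hq] at hqs
    have hv : x - q ≠ 0 := by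
      intro h0
      rw [sub_eq_zero] at h0
      rw [h0] at hx
      exact hx hqs.1
    obtain ⟨R, hR⟩ := hD.subset_closedBall 0
    -- far point
    have hvpos : 0 < ‖x - q‖ := norm_pos_iff.2 hv
    set S : ℝ := (|R| + ‖q‖ + 1) / ‖x - q‖ with hS
    have hSpos : 0 < S := by positivity
    have hfar : q + S • (x - q) ∉ D := by
      intro hmem
      have h1 := hR hmem
      rw [mem_closedBall_zero_iff] at h1
      have h2 : ‖S • (x - q)‖ = |R| + ‖q‖ + 1 := by
        rw [norm_smul, Real.norm_of_nonneg hSpos.le, hS]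
        field_simp
      have h3 : ‖S • (x - q)‖ ≤ ‖q + S • (x - q)‖ + ‖q‖ := by
        have := norm_sub_le (q + S • (x - q)) q
        simpa using this
      have h4 := le_abs_self R
      linarith
    have hray : IsPreconnected ((fun s : ℝ => q + s • (x - q)) '' Icc 0 S) := by
      apply isPreconnected_Icc.image
      fun_prop
    obtain ⟨z, ⟨s, hs, rfl⟩, hzf⟩ := preconnected_meets_frontier (s := D) hray
      ⟨q, ⟨0, ⟨le_rfl, hSpos.le⟩, by simp⟩, hKD hqs.1⟩
      ⟨q + S • (x - q), ⟨S, ⟨hSpos.le, le_rfl⟩, rfl⟩, hfar⟩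
    refine ⟨_, hzf, ?_⟩
    exact isNP_unique (npp_spec hne hcl hconv _) (isNP_ray hqs hs.1)
  intro q hq
  have hqK : q ∈ K := hcl.frontier_subset hq
  have hqc : q ∈ closure Kᶜ := by
    rw [frontier_eq_closure_inter_closure] at hq
    exact hq.2
  have h1 : npp K q = q := isNP_unique (npp_spec hne hcl hconv q) (isNP_self hqK)
  have h2 : npp K q ∈ closure (npp K '' Kᶜ) :=
    image_closure_subset_closure_image (npp_lipschitz hne hcl hconv).continuous ⟨q, hqc, rfl⟩
  rw [h1] at h2
  have h3 : closure (npp K '' Kᶜ) ⊆ npp K '' frontier D := by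
    apply closure_minimal _ hT.isClosed
    rintro _ ⟨x, hx, rfl⟩
    exact hA x hx
  exact h3 h2

lemma euclideanHausdorff_image_le {f : V → V} (hf : LipschitzWith 1 f) (d : ℕ) (S : Set V) :
    μHE[d] (f '' S) ≤ μHE[d] S := by
  have h1 : μH[(d : ℝ)] (f '' S) ≤ μH[(d : ℝ)] S := by
    have := hf.hausdorffMeasure_image_le (d := (d : ℝ)) (by positivity) S
    simpa using this
  simp only [Measure.euclideanHausdorffMeasure_def, Measure.smul_apply]
  exact smul_le_smul_of_nonneg_left h1 (by positivity)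

lemma restrict_le_map {f : V → V} (hf : LipschitzWith 1 f) (d : ℕ) {X Y : Set V}
    (hY : Y ⊆ f '' X) :
    (μHE[d] : Measure V).restrict Y ≤ ((μHE[d] : Measure V).restrict X).map f := by
  apply Measure.le_intro
  intro B hB _
  rw [Measure.restrict_apply hB, Measure.map_apply hf.continuous.measurable hB,
    Measure.restrict_apply (hf.continuous.measurable hB)]
  calc μHE[d] (B ∩ Y) ≤ μHE[d] (f '' (f ⁻¹' B ∩ X)) := by
        apply measure_mono
        rintro z ⟨hzB, hzY⟩
        obtain ⟨x, hx, rfl⟩ := hY hzY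
        exact ⟨x, ⟨hzB, hx⟩, rfl⟩
    _ ≤ _ := euclideanHausdorff_image_le hf d _

/-- comparison of boundary integrals under a `1`-Lipschitz surjection -/
lemma lintegral_transfer {f : V → V} (hf : LipschitzWith 1 f) (d : ℕ) {X Y : Set V}
    (hY : Y ⊆ f '' X) {F : V → ℝ≥0∞} (hF : Measurable F) :
    ∫⁻ z in Y, F z ∂μHE[d] ≤ ∫⁻ x in X, F (f x) ∂μHE[d] := by
  rw [← lintegral_map hF hf.continuous.measurable]
  exact lintegral_mono' (restrict_le_map hf d hY) le_rfl

end MP_e9cb08
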