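import Pool.Agent.Work.MP_e9cb08_gt.Facet
import Pool.Agent.Work.MP_e9cb08_gt.Proj

/-!
# The boundary of a bounded convex set has finite surface area
-/

set_option linter.unusedSectionVars false

namespace MP_e9cb08

open MeasureTheory Set Module
open scoped InnerProductSpace RealInnerProductSpace ENNReal

variable {V : Type*} [NormedAddCommGroup V] [InnerProductSpace ℝ V] [FiniteDimensional ℝ V]
  [MeasurableSpace V] [BorelSpace V]

/-- a bounded piece of a hyperplane has finite area -/
lemma hyperplane_piece_finite {n : V} (hn : ‖n‖ = 1) (β : ℝ) {A : Set V}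
    (hA : Bornology.IsBounded A) (hAH : A ⊆ {z | ⟪n, z⟫_ℝ = β}) :
    μHE[finrank ℝ V - 1] A < ∞ := by
  have hnn : ⟪n, n⟫_ℝ = 1 := by rw [real_inner_self_eq_norm_sq, hn]; norm_num
  have hne : ⟪n, n⟫_ℝ ≠ 0 := by rw [hnn]; norm_num
  have h1 : A ⊆ lam n n β '' (lam n n β ⁻¹' A) := by
    intro z hz
    obtain ⟨t, y, rfl⟩ := exists_decomp n hn z
    have := lam_of_mem hne (hAH hz)
    refine ⟨y, ?_, this⟩
    rw [mem_preimage, this]
    exact hz
  have h2 : Bornology.IsBounded (lam n n β ⁻¹' A) := by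
    obtain ⟨R, hR⟩ := hA.subset_closedBall 0
    rw [isBounded_iff_forall_norm_le]
    refine ⟨R + |β|, ?_⟩
    intro y hy
    have h3 := hR hy
    rw [mem_closedBall_zero_iff] at h3
    have h4 : lam n n β y = (y : V) + β • n := by
      unfold lam
      rw [inner_perp, hnn]
      simp
    rw [h4] at h3
    have h5 : ‖(y : V)‖ ≤ ‖(y : V) + β • n‖ + ‖β • n‖ := by
      have := norm_sub_le ((y : V) + β • n) (β • n)
      simpa using this
    rw [norm_smul, hn, mul_one, Real.norm_eq_abs] at h5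
    have h6 : ‖y‖ = ‖(y : V)‖ := rfl
    rw [h6]
    linarith
  calc μHE[finrank ℝ V - 1] A ≤ μHE[finrank ℝ V - 1] (lam n n β '' (lam n n β ⁻¹' A)) :=
        measure_mono h1
    _ = ENNReal.ofReal (|⟪n, n⟫_ℝ|⁻¹) * volume (lam n n β ⁻¹' A) :=
        euclideanHausdorff_lam_image hn hn hne β _
    _ < ∞ := ENNReal.mul_lt_top ENNReal.ofReal_lt_top h2.measure_lt_top

/-- a box -/
def Box (R : ℝ) : Set V := {z | ∀ i, |⟪stdOrthonormalBasis ℝ V i, z⟫_ℝ| ≤ R}

lemma box_bounded (R : ℝ) : Bornology.IsBounded (Box (V := V) R) := by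
  rw [isBounded_iff_forall_norm_le]
  refine ⟨√(∑ _i : Fin (finrank ℝ V), R ^ 2), ?_⟩
  intro z hz
  apply Real.le_sqrt_of_sq_le
  rw [← (stdOrthonormalBasis ℝ V).sum_sq_inner_right z]
  apply Finset.sum_le_sum
  intro i _
  rw [← sq_abs]
  exact pow_le_pow_left₀ (abs_nonneg _) (hz i) 2

lemma box_closed (R : ℝ) : IsClosed (Box (V := V) R) := by
  have : Box (V := V) R = ⋂ i, {z | |⟪stdOrthonormalBasis ℝ V i, z⟫_ℝ| ≤ R} := by
    ext z; simp [Box]
  rw [this]
  apply isClosed_iInter
  intro i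
  exact isClosed_le (by fun_prop) continuous_const

lemma frontier_box_subset (R : ℝ) : frontier (Box (V := V) R) ⊆
    ⋃ i, ((Box (V := V) R ∩ {z | ⟪stdOrthonormalBasis ℝ V i, z⟫_ℝ = R}) ∪
      (Box (V := V) R ∩ {z | ⟪stdOrthonormalBasis ℝ V i, z⟫_ℝ = -R})) := by
  intro z hz
  rw [(box_closed R).frontier_eq] at hz
  obtain ⟨hzB, hzi⟩ := hz
  by_contra hcon
  apply hzi
  have hlt : ∀ i, |⟪stdOrthonormalBasis ℝ V i, z⟫_ℝ| < R := by
    intro i
    apply lt_of_le_of_ne (hzB i)
    intro heq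
    apply hcon
    rw [mem_iUnion]
    refine ⟨i, ?_⟩
    rcases abs_choice ⟪stdOrthonormalBasis ℝ V i, z⟫_ℝ with h | h
    · left
      refine ⟨hzB, ?_⟩
      rw [mem_ofPred_eq, ← heq, h]
    · right
      refine ⟨hzB, ?_⟩
      rw [mem_ofPred_eq, ← heq, h, neg_neg]
  rw [mem_interior]
  refine ⟨⋂ i, {w | |⟪stdOrthonormalBasis ℝ V i, w⟫_ℝ| < R}, ?_, ?_, ?_⟩
  · intro w hw i
    rw [mem_iInter] at hw
    exact (hw i).le
  · apply isOpen_iInter_of_finite
    intro i
    exact isOpen_lt (by fun_prop) continuous_const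
  · rw [mem_iInter]
    exact hlt

lemma frontier_box_finite (R : ℝ) : μHE[finrank ℝ V - 1] (frontier (Box (V := V) R)) < ∞ := by
  refine (measure_mono (frontier_box_subset R)).trans_lt ?_
  refine (measure_iUnion_fintype_le _ _).trans_lt ?_
  rw [ENNReal.sum_lt_top]
  intro i _
  refine (measure_union_le _ _).trans_lt ?_
  apply ENNReal.add_lt_top.2
  constructor
  · apply hyperplane_piece_finite ((stdOrthonormalBasis ℝ V).norm_eq_one i) R
    · exact (box_bounded R).subset inter_subset_left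
    · exact inter_subset_right
  · apply hyperplane_piece_finite ((stdOrthonormalBasis ℝ V).norm_eq_one i) (-R)
    · exact (box_bounded R).subset inter_subset_left
    · exact inter_subset_right

/-- the boundary of a compact convex set has finite area -/
theorem frontier_finite {C : Set V} (hC : IsCompact C) (hconv : Convex ℝ C) :
    μHE[finrank ℝ V - 1] (frontier C) < ∞ := by
  rcases C.eq_empty_or_nonempty with rfl | hne
  · simp
  obtain ⟨R, hR⟩ := hC.isBounded.subset_closedBall 0
  have hsub : C ⊆ Box (V := V) R := by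
    intro z hz i
    have h1 := hR hz
    rw [mem_closedBall_zero_iff] at h1
    refine (abs_real_inner_le_norm _ _).trans ?_
    rw [(stdOrthonormalBasis ℝ V).norm_eq_one i, one_mul]
    exact h1
  have h2 := frontier_subset_image hne hC.isClosed hconv hsub (box_bounded R)
  calc μHE[finrank ℝ V - 1] (frontier C)
      ≤ μHE[finrank ℝ V - 1] (npp C '' frontier (Box (V := V) R)) := measure_mono h2
    _ ≤ μHE[finrank ℝ V - 1] (frontier (Box (V := V) R)) :=
        euclideanHausdorff_image_le (npp_lipschitz hne hC.isClosed hconv) _ _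
    _ < ∞ := frontier_box_finite R

end MP_e9cb08
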