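import Pool.Agent.Work.MP_e9cb08_gt.Average
import Pool.Agent.Work.MP_e9cb08_gt.Finite

/-!
# Approximation by polytopes and the general inequality
-/

set_option linter.unusedSectionVars false

namespace MP_e9cb08

open MeasureTheory Set Module
open scoped InnerProductSpace RealInnerProductSpace ENNReal NNReal

variable {V : Type*} [NormedAddCommGroup V] [InnerProductSpace ℝ V] [FiniteDimensional ℝ V]
  [MeasurableSpace V] [BorelSpace V]

/-- separation by a unit vector -/
lemma exists_unit_sep {K : Set V} (hne : K.Nonempty) (hcl : IsClosed K) (hconv : Convex ℝ K)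
    {w : V} (hw : w ∉ K) :
    ∃ (n : V) (β : ℝ), ‖n‖ = 1 ∧ (∀ a ∈ K, ⟪n, a⟫_ℝ ≤ β) ∧ β < ⟪n, w⟫_ℝ := by
  obtain ⟨f, u, hfu, huw⟩ := geometric_hahn_banach_closed_point hconv hcl hw
  set v := (InnerProductSpace.toDual ℝ V).symm f with hv
  have hfv : ∀ x, f x = ⟪v, x⟫_ℝ := by
    intro x
    rw [hv, InnerProductSpace.toDual_symm_apply]
  obtain ⟨a, ha⟩ := hne
  have hv0 : v ≠ 0 := by
    intro h0
    have h1 := hfu a ha
    rw [hfv, h0, inner_zero_left] at h1
    rw [hfv, h0, inner_zero_left] at huw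
    linarith
  have hvpos : 0 < ‖v‖ := norm_pos_iff.2 hv0
  refine ⟨‖v‖⁻¹ • v, ‖v‖⁻¹ * u, ?_, ?_, ?_⟩
  · rw [norm_smul, norm_inv, norm_norm, inv_mul_cancel₀ hvpos.ne']
  · intro x hx
    rw [real_inner_smul_left, ← hfv]
    exact mul_le_mul_of_nonneg_left (hfu x hx).le (inv_pos.2 hvpos).le
  · rw [real_inner_smul_left, ← hfv]
    exact mul_lt_mul_of_pos_left huw (inv_pos.2 hvpos)

/-- A polytope between a compact convex `K ⊆ interior C` and `C`. -/
lemma exists_poly {K C : Set V} (hne : K.Nonempty) (hK : IsCompact K) (hKc : Convex ℝ K)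
    (hKC : K ⊆ interior C) (hC : IsCompact C) :
    ∃ (N : ℕ) (nrm : Fin N → V) (β : Fin N → ℝ), (∀ j, ‖nrm j‖ = 1) ∧
      K ⊆ Poly nrm β ∧ Poly nrm β ⊆ C := by
  classical
  have hsep : ∀ w : frontier C, ∃ (n : V) (β : ℝ), ‖n‖ = 1 ∧ (∀ a ∈ K, ⟪n, a⟫_ℝ ≤ β) ∧
      β < ⟪n, (w : V)⟫_ℝ := by
    intro w
    apply exists_unit_sep hne hK.isClosed hKc
    intro hwK
    exact w.2.2 (hKC hwK)
  choose n β h1 h2 h3 using hsep
  have hfc : IsCompact (frontier C) := by
    apply Metric.isCompact_of_isClosed_isBounded isClosed_frontier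
    exact hC.isBounded.closure.subset frontier_subset_closure
  have hopen : ∀ w : frontier C, IsOpen {z : V | β w < ⟪n w, z⟫_ℝ} := by
    intro w
    exact isOpen_lt continuous_const (by fun_prop)
  obtain ⟨t, ht⟩ := hfc.elim_finite_subcover (fun w : frontier C => {z : V | β w < ⟪n w, z⟫_ℝ})
    hopen (by
      intro z hz
      rw [mem_iUnion]
      exact ⟨⟨z, hz⟩, h3 ⟨z, hz⟩⟩)
  set e := t.equivFin with he
  refine ⟨t.card, fun j => n (e.symm j), fun j => β (e.symm j), ?_, ?_, ?_⟩
  · intro j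
    exact h1 _
  · intro a ha j
    exact h2 _ a ha
  · set P := Poly (fun j => n (e.symm j)) (fun j => β (e.symm j)) with hP
    have hKP : K ⊆ P := by
      intro a ha j
      exact h2 _ a ha
    have hdisj : P ∩ frontier C = ∅ := by
      rw [eq_empty_iff_forall_notMem]
      rintro z ⟨hzP, hzf⟩
      have h4 := ht hzf
      rw [mem_iUnion₂] at h4
      obtain ⟨w, hw, hzw⟩ := h4
      have h5 := hzP (e ⟨w, hw⟩)
      simp only [Equiv.symm_apply_apply] at h5
      exact absurd hzw (not_lt.2 h5)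
    by_contra hnot
    rw [not_subset] at hnot
    obtain ⟨y, hyP, hyC⟩ := hnot
    obtain ⟨a, ha⟩ := hne
    have := preconnected_meets_frontier (t := P) (s := C) (convex_poly.isPreconnected)
      ⟨a, hKP ha, interior_subset (hKC ha)⟩ ⟨y, hyP, hyC⟩
    rw [hdisj] at this
    exact not_nonempty_empty this

lemma continuous_F {h : V → ℝ} (hc : Continuous h) : Continuous fun z => ‖z‖ ^ 2 + h z ^ 2 := by
  fun_prop

/-- the inequality up to a small error -/
lemma approx_le {h : V → ℝ} (hc : ConvexOn ℝ univ h) (h0 : ∀ z, 0 ≤ h z) {e0 : V}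
    (he0 : ‖e0‖ = 1) {C : Set V} (hC : IsCompact C)
    {K : Set V} (hne : K.Nonempty) (hK : IsCompact K) (hKc : Convex ℝ K)
    (hKC : K ⊆ interior C) {η δ : ℝ}
    (huc : ∀ x ∈ C, ∀ y ∈ C, ‖x - y‖ < δ →
      ‖y‖ ^ 2 + h y ^ 2 ≤ ‖x‖ ^ 2 + h x ^ 2 + η) (hη : 0 ≤ η)
    (hnear : ∀ x ∈ C, ∃ y ∈ K, ‖x - y‖ < δ) :
    ∫⁻ z in K, bulk h z ≤ (∫⁻ z in frontier C, bdF h z ∂μHE[finrank ℝ V - 1]) +
      ENNReal.ofReal η * μHE[finrank ℝ V - 1] (frontier C) := by
  obtain ⟨N, nrm, β, hn, hKP, hPC⟩ := exists_poly hne hK hKc hKC hC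
  have hPne : (Poly nrm β).Nonempty := hne.mono hKP
  have hPb : Bornology.IsBounded (Poly nrm β) := hC.isBounded.subset hPC
  have hcont := continuous_of_convex hc
  have hfr : frontier (Poly nrm β) ⊆ npp (Poly nrm β) '' frontier C :=
    frontier_subset_image hPne isClosed_poly convex_poly hPC hC.isBounded
  have hlip : LipschitzWith 1 (npp (Poly nrm β)) := npp_lipschitz hPne isClosed_poly convex_poly
  calc ∫⁻ z in K, bulk h z ≤ ∫⁻ z in Poly nrm β, bulk h z := lintegral_mono_set hKP
    _ ≤ ∫⁻ z in frontier (Poly nrm β), bdF h z ∂μHE[finrank ℝ V - 1] :=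
        poly_le hc h0 he0 hn hPb
    _ ≤ ∫⁻ z in frontier C, bdF h (npp (Poly nrm β) z) ∂μHE[finrank ℝ V - 1] :=
        lintegral_transfer hlip _ hfr (measurable_bdF hcont)
    _ ≤ ∫⁻ z in frontier C, (bdF h z + ENNReal.ofReal η) ∂μHE[finrank ℝ V - 1] := by
        apply setLIntegral_mono ((measurable_bdF hcont).add_const _)
        intro x hx
        have hxC : x ∈ C := hC.isClosed.frontier_subset hx
        have hsp := npp_spec hPne isClosed_poly convex_poly x
        obtain ⟨y, hyK, hxy⟩ := hnear x hxC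
        have h1 := isNP_dist_le hsp (hKP hyK)
        have h2 := huc x hxC _ (hPC hsp.1) (h1.trans_lt hxy)
        unfold bdF
        rw [← ENNReal.ofReal_add (by positivity) hη]
        exact ENNReal.ofReal_le_ofReal h2
    _ = _ := by
        rw [lintegral_add_right _ measurable_const]
        simp

/-- **The general inequality**, for a compact convex set with an interior point. -/
lemma main_interior {h : V → ℝ} (hc : ConvexOn ℝ univ h) (h0 : ∀ z, 0 ≤ h z) {e0 : V}
    (he0 : ‖e0‖ = 1) {C : Set V} (hC : IsCompact C) (hconv : Convex ℝ C)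
    {c0 : V} (hc0 : c0 ∈ interior C) :
    ∫⁻ z in C, bulk h z ≤ ∫⁻ z in frontier C, bdF h z ∂μHE[finrank ℝ V - 1] := by
  have hcont := continuous_of_convex hc
  -- shrunk copies
  set S : ℝ → Set V := fun t => (fun z => c0 + t • (z - c0)) '' C with hS
  have hScompact : ∀ t, IsCompact (S t) := fun t => hC.image (by fun_prop)
  have hSconv : ∀ t, Convex ℝ (S t) := by
    intro t
    rintro _ ⟨x, hx, rfl⟩ _ ⟨y, hy, rfl⟩ a b ha hb hab
    refine ⟨a • x + b • y, hconv hx hy ha hb hab, ?_⟩
    have hc1 : c0 = a • c0 + b • c0 := by rw [← add_smul, hab, one_smul]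
    have : a • (c0 + t • (x - c0)) + b • (c0 + t • (y - c0)) =
        (a • c0 + b • c0) + t • ((a • x + b • y) - (a • c0 + b • c0)) := by
      simp only [smul_add, smul_sub, smul_smul, mul_comm]
      abel
    rw [this, ← hc1]
  have hSne : ∀ t, (S t).Nonempty := fun t => ⟨_, ⟨c0, interior_subset hc0, rfl⟩⟩
  have hSint : ∀ t, 0 ≤ t → t < 1 → S t ⊆ interior C := by
    rintro t ht0 ht1 _ ⟨x, hx, rfl⟩
    have := hconv.add_smul_sub_mem_interior hx hc0 (t := 1 - t) ⟨by linarith, by linarith⟩
    have e1 : x + (1 - t) • (c0 - x) = c0 + t • (x - c0) := by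
      rw [sub_smul, one_smul, smul_sub, smul_sub]
      abel
    rwa [e1] at this
  have hSmono : ∀ s t, 0 ≤ s → s ≤ t → 0 < t → S s ⊆ S t := by
    rintro s t hs hst ht _ ⟨x, hx, rfl⟩
    refine ⟨c0 + (s / t) • (x - c0), ?_, ?_⟩
    · have h1 : 0 ≤ s / t := by positivity
      have h2 : s / t ≤ 1 := (div_le_one ht).2 hst
      exact hconv.add_smul_sub_mem (interior_subset hc0) hx ⟨h1, h2⟩
    · simp only [add_sub_cancel_left, smul_smul]
      congr 2
      field_simp
  set M := μHE[finrank ℝ V - 1] (frontier C) with hM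
  have hMfin : M < ∞ := frontier_finite hC hconv
  set I := ∫⁻ z in frontier C, bdF h z ∂μHE[finrank ℝ V - 1] with hI
  -- step 1
  have step1 : ∀ s, 0 ≤ s → s < 1 → ∫⁻ z in S s, bulk h z ≤ I := by
    intro s hs0 hs1
    apply ENNReal.le_of_forall_pos_le_add
    intro ε hε _
    -- choose η with η M ≤ ε
    set η : ℝ := ε / (M.toReal + 1) with hη
    have hMr : 0 ≤ M.toReal := ENNReal.toReal_nonneg
    have hηpos : 0 < η := by positivity
    have hηM : ENNReal.ofReal η * M ≤ ε := by
      rw [← ENNReal.ofReal_toReal hMfin.ne, ← ENNReal.ofReal_mul hηpos.le]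
      rw [← ENNReal.ofReal_coe_nnreal (p := ε)]
      apply ENNReal.ofReal_le_ofReal
      rw [hη, div_mul_eq_mul_div]
      rw [div_le_iff₀ (by positivity)]
      have : (0 : ℝ) ≤ ε := ε.2
      nlinarith
    -- uniform continuity
    have huc := hC.uniformContinuousOn_of_continuous (continuous_F hcont).continuousOn
    rw [Metric.uniformContinuousOn_iff] at huc
    obtain ⟨δ, hδ, hucδ⟩ := huc η hηpos
    -- diameter
    obtain ⟨R, hR⟩ := hC.isBounded.exists_norm_le
    have hRnn : 0 ≤ R := (norm_nonneg c0).trans (hR c0 (interior_subset hc0))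
    -- choose t
    obtain ⟨t, ht0, hts, ht1, htδ⟩ : ∃ t : ℝ, 0 < t ∧ s ≤ t ∧ t < 1 ∧
        (1 - t) * (2 * R + 1) < δ := by
      refine ⟨max (max s (1 / 2)) (1 - δ / (2 * (2 * R + 1))), ?_, ?_, ?_, ?_⟩
      · exact lt_max_of_lt_left (lt_max_of_lt_right (by norm_num))
      · exact le_max_of_le_left (le_max_left _ _)
      · apply max_lt (max_lt hs1 (by norm_num))
        have : 0 < δ / (2 * (2 * R + 1)) := by positivity
        linarith
      · have h1 := le_max_right (max s (1 / 2)) (1 - δ / (2 * (2 * R + 1)))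
        have h2 : 1 - max (max s (1 / 2)) (1 - δ / (2 * (2 * R + 1))) ≤
            δ / (2 * (2 * R + 1)) := by linarith
        have h3 : 0 < 2 * R + 1 := by linarith
        calc _ ≤ δ / (2 * (2 * R + 1)) * (2 * R + 1) := by gcongr
          _ = δ / 2 := by field_simp
          _ < δ := by linarith
    have h1 := approx_le hc h0 he0 hC (hSne t) (hScompact t) (hSconv t)
      (hSint t ht0.le ht1) (η := η) (δ := δ) (by
        intro x hx y hy hxy
        have h2 := hucδ x hx y hy (by rw [dist_eq_norm]; exact hxy)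
        rw [Real.dist_eq, abs_lt] at h2
        linarith [h2.1]) hηpos.le (by
        intro x hx
        refine ⟨c0 + t • (x - c0), ⟨x, hx, rfl⟩, ?_⟩
        have e1 : x - (c0 + t • (x - c0)) = (1 - t) • (x - c0) := by
          rw [sub_smul, one_smul]
          abel
        rw [e1, norm_smul, Real.norm_of_nonneg (by linarith)]
        have h3 : ‖x - c0‖ ≤ 2 * R + 1 := by
          have := norm_sub_le x c0
          have := hR x hx
          have := hR c0 (interior_subset hc0)
          linarith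
        calc (1 - t) * ‖x - c0‖ ≤ (1 - t) * (2 * R + 1) := by
              apply mul_le_mul_of_nonneg_left h3 (by linarith)
          _ < δ := htδ)
    calc ∫⁻ z in S s, bulk h z ≤ ∫⁻ z in S t, bulk h z :=
          lintegral_mono_set (hSmono s t hs0 hts ht0)
      _ ≤ I + ENNReal.ofReal η * M := h1
      _ ≤ I + ε := by gcongr
  -- step 2: exhaust
  set tk : ℕ → ℝ := fun k => 1 - 1 / ((k : ℝ) + 2) with htk
  have htk0 : ∀ k, 0 < tk k := by
    intro k
    simp only [htk]
    have : 1 / ((k : ℝ) + 2) < 1 := by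
      rw [div_lt_one (by positivity)]
      have : (0 : ℝ) ≤ k := by positivity
      linarith
    linarith
  have htk1 : ∀ k, tk k < 1 := by
    intro k
    simp only [htk]
    have : 0 < 1 / ((k : ℝ) + 2) := by positivity
    linarith
  have htkm : Monotone tk := by
    intro k l hkl
    simp only [htk]
    have : 1 / ((l : ℝ) + 2) ≤ 1 / ((k : ℝ) + 2) := by
      apply one_div_le_one_div_of_le (by positivity)
      have : (k : ℝ) ≤ l := by exact_mod_cast hkl
      linarith
    linarith
  have hcover : interior C ⊆ ⋃ k, S (tk k) := by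
    intro z hz
    have hlim : Filter.Tendsto (fun k : ℕ => c0 + (tk k)⁻¹ • (z - c0)) Filter.atTop (nhds z) := by
      have h1 : Filter.Tendsto tk Filter.atTop (nhds 1) := by
        have h2 : Filter.Tendsto (fun k : ℕ => 1 / ((k : ℝ) + 2)) Filter.atTop (nhds 0) := by
          have h3 := tendsto_one_div_add_atTop_nhds_zero_nat (𝕜 := ℝ)
          have h4 := h3.comp (Filter.tendsto_add_atTop_nat 1)
          refine h4.congr ?_
          intro k
          simp only [Function.comp_apply, Nat.cast_add, Nat.cast_one]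
          congr 1
          ring
        simpa [htk] using h2.const_sub 1
      have h5 : Filter.Tendsto (fun k => c0 + (tk k)⁻¹ • (z - c0)) Filter.atTop
          (nhds (c0 + (1 : ℝ)⁻¹ • (z - c0))) :=
        ((h1.inv₀ one_ne_zero).smul_const (z - c0)).const_add c0
      simpa using h5
    have hev := hlim.eventually (isOpen_interior.mem_nhds hz)
    obtain ⟨k, hk⟩ := hev.exists
    rw [mem_iUnion]
    refine ⟨k, ⟨c0 + (tk k)⁻¹ • (z - c0), interior_subset hk, ?_⟩⟩
    simp only [add_sub_cancel_left, smul_smul, mul_inv_cancel₀ (htk0 k).ne', one_smul]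
    abel
  have hae : (C : Set V) =ᵐ[volume] interior C := by
    rw [ae_eq_set]
    constructor
    · refine measure_mono_null ?_ (hconv.addHaar_frontier volume)
      intro z hz
      exact ⟨subset_closure hz.1, hz.2⟩
    · rw [sdiff_eq_empty.2 interior_subset, measure_empty]
  calc ∫⁻ z in C, bulk h z = ∫⁻ z in interior C, bulk h z := setLIntegral_congr hae
    _ ≤ ∫⁻ z in ⋃ k, S (tk k), bulk h z := lintegral_mono_set hcover
    _ = ⨆ k, ∫⁻ z in S (tk k), bulk h z := by
        apply setLIntegral_iUnion_of_directed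
        apply Monotone.directed_le
        intro k l hkl
        exact hSmono _ _ (htk0 k).le (htkm hkl) (htk0 l)
    _ ≤ I := iSup_le fun k => step1 _ (htk0 k).le (htk1 k)

/-- **The general inequality** (in `ℝ≥0∞`). -/
theorem main_lintegral {h : V → ℝ} (hc : ConvexOn ℝ univ h) (h0 : ∀ z, 0 ≤ h z) {e0 : V}
    (he0 : ‖e0‖ = 1) {C : Set V} (hC : IsCompact C) (hconv : Convex ℝ C) :
    ∫⁻ z in C, bulk h z ≤ ∫⁻ z in frontier C, bdF h z ∂μHE[finrank ℝ V - 1] := by
  rcases (interior C).eq_empty_or_nonempty with hemp | ⟨c0, hc0⟩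
  · have h1 : volume C = 0 := by
      have h2 : C = frontier C := by
        rw [hC.isClosed.frontier_eq, hemp, sdiff_empty]
      rw [h2]
      exact hconv.addHaar_frontier volume
    rw [Measure.restrict_eq_zero.2 h1]
    simp
  · exact main_interior hc h0 he0 hC hconv hc0

end MP_e9cb08
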