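import Pool.Agent.Work.MP_e9cb08_gt.Slice

/-!
# Averaging over directions: the inequality on a polytope
-/

set_option linter.unusedSectionVars false

namespace MP_e9cb08

open MeasureTheory Set Module
open scoped InnerProductSpace RealInnerProductSpace ENNReal

variable {V : Type*} [NormedAddCommGroup V] [InnerProductSpace ℝ V] [FiniteDimensional ℝ V]
  [MeasurableSpace V] [BorelSpace V]

/-- the bulk density -/
noncomputable def bulk (h : V → ℝ) (z : V) : ℝ≥0∞ :=
  ENNReal.ofReal (2 * h z * √(1 + ‖gradient h z‖ ^ 2))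

/-- the averaging constant -/
noncomputable def KK (u : V) : ℝ≥0∞ :=
  ∫⁻ x in Metric.closedBall (0 : V) 1, ENNReal.ofReal |⟪u, x⟫_ℝ|

lemma fderiv_eq_inner (h : V → ℝ) (z x : V) : fderiv ℝ h z x = ⟪gradient h z, x⟫_ℝ := by
  rw [gradient, InnerProductSpace.toDual_symm_apply]

lemma measurable_ofReal_inner (u : V) : Measurable fun x : V => ENNReal.ofReal |⟪u, x⟫_ℝ| := by
  have : Continuous fun x : V => |⟪u, x⟫_ℝ| := by fun_prop
  exact ENNReal.measurable_ofReal.comp this.measurable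

lemma KK_eq {u v : V} (huv : ‖u‖ = ‖v‖) : KK u = KK v := by
  set R : V ≃ₗᵢ[ℝ] V := (ℝ ∙ (u - v))ᗮ.reflection with hR
  have hRu : R u = v := Submodule.reflection_sub huv
  have hmp : MeasurePreserving R volume volume := R.measurePreserving
  have hmeas : Measurable ((Metric.closedBall (0 : V) 1).indicator
      (fun x => ENNReal.ofReal |⟪v, x⟫_ℝ|)) := by
    apply Measurable.indicator _ measurableSet_closedBall
    exact measurable_ofReal_inner v
  have hcomp := hmp.lintegral_comp hmeas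
  unfold KK
  rw [← lintegral_indicator measurableSet_closedBall,
    ← lintegral_indicator measurableSet_closedBall]
  rw [← hcomp]
  · apply lintegral_congr
    intro x
    have h1 : R x ∈ Metric.closedBall (0 : V) 1 ↔ x ∈ Metric.closedBall (0 : V) 1 := by
      simp
    have h2 : ⟪v, R x⟫_ℝ = ⟪u, x⟫_ℝ := by
      rw [← hRu, LinearIsometryEquiv.inner_map_map]
    by_cases hx : x ∈ Metric.closedBall (0 : V) 1
    · rw [indicator_of_mem hx, indicator_of_mem (h1.2 hx), h2]
    · rw [indicator_of_notMem hx, indicator_of_notMem (fun hc => hx (h1.1 hc))]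

lemma KK_ne_top {u : V} (hu : ‖u‖ = 1) : KK u ≠ ∞ := by
  have h1 : KK u ≤ ∫⁻ _ in Metric.closedBall (0 : V) 1, 1 := by
    unfold KK
    apply setLIntegral_mono measurable_const
    intro x hx
    rw [mem_closedBall_zero_iff] at hx
    rw [← ENNReal.ofReal_one]
    apply ENNReal.ofReal_le_ofReal
    refine (abs_real_inner_le_norm u x).trans ?_
    rw [hu, one_mul]
    exact hx
  refine ne_top_of_le_ne_top ?_ h1
  simp only [lintegral_const, Measure.restrict_apply MeasurableSet.univ, univ_inter, one_mul]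
  exact (isCompact_closedBall (0 : V) 1).measure_lt_top.ne

lemma KK_ne_zero {u : V} (hu : ‖u‖ = 1) : KK u ≠ 0 := by
  have hball : Metric.ball ((1 / 2 : ℝ) • u) (1 / 4) ⊆ Metric.closedBall (0 : V) 1 := by
    intro x hx
    rw [mem_ball_iff_norm] at hx
    rw [mem_closedBall_zero_iff]
    have h1 : ‖x‖ ≤ ‖x - (1 / 2 : ℝ) • u‖ + ‖(1 / 2 : ℝ) • u‖ := by
      simpa using norm_add_le (x - (1 / 2 : ℝ) • u) ((1 / 2 : ℝ) • u)
    rw [norm_smul, hu] at h1
    norm_num at h1 hx
    linarith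
  have h1 : ENNReal.ofReal (1 / 4) * volume (Metric.ball ((1 / 2 : ℝ) • u) (1 / 4)) ≤ KK u := by
    unfold KK
    calc ENNReal.ofReal (1 / 4) * volume (Metric.ball ((1 / 2 : ℝ) • u) (1 / 4))
        = ∫⁻ _ in Metric.ball ((1 / 2 : ℝ) • u) (1 / 4), ENNReal.ofReal (1 / 4) := by
          simp
      _ ≤ ∫⁻ x in Metric.ball ((1 / 2 : ℝ) • u) (1 / 4), ENNReal.ofReal |⟪u, x⟫_ℝ| := by
          apply setLIntegral_mono
          · exact ENNReal.measurable_ofReal.comp (by fun_prop : Continuous _).measurable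
          intro x hx
          apply ENNReal.ofReal_le_ofReal
          rw [mem_ball_iff_norm] at hx
          have h2 : ⟪u, x⟫_ℝ = ⟪u, x - (1 / 2 : ℝ) • u⟫_ℝ + 1 / 2 := by
            rw [inner_sub_right, inner_smul_right, real_inner_self_eq_norm_sq, hu]
            ring
          have h3 := abs_real_inner_le_norm u (x - (1 / 2 : ℝ) • u)
          rw [hu, one_mul] at h3
          have h4 := neg_abs_le ⟪u, x - (1 / 2 : ℝ) • u⟫_ℝ
          have h5 := le_abs_self ⟪u, x⟫_ℝ
          linarith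
      _ ≤ _ := lintegral_mono_set hball
  have h2 : 0 < ENNReal.ofReal (1 / 4) * volume (Metric.ball ((1 / 2 : ℝ) • u) (1 / 4)) := by
    apply ENNReal.mul_pos
    · simp
    · exact (Metric.measure_ball_pos volume _ (by norm_num)).ne'
  exact (h2.trans_le h1).ne'

lemma bulkG_zero (h : V → ℝ) (z : V) : bulkG h 0 z = 0 := by
  unfold bulkG
  simp

lemma bulkG_homog (h : V → ℝ) {x : V} (hx : x ≠ 0) (z : V) :
    bulkG h x z = ENNReal.ofReal ‖x‖ * bulkG h ((‖x‖)⁻¹ • x) z := by
  have hx' : 0 < ‖x‖ := norm_pos_iff.2 hx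
  unfold bulkG
  rw [← ENNReal.ofReal_mul hx'.le]
  congr 1
  have e1 : ‖(‖x‖)⁻¹ • x‖ = 1 := by
    rw [norm_smul, norm_inv, norm_norm, inv_mul_cancel₀ hx'.ne']
  rw [e1, map_smul, smul_eq_mul]
  have e2 : ‖x‖ ^ 2 + (fderiv ℝ h z x) ^ 2 =
      ‖x‖ ^ 2 * (1 ^ 2 + (‖x‖⁻¹ * fderiv ℝ h z x) ^ 2) := by
    field_simp
  rw [e2, Real.sqrt_mul (by positivity), Real.sqrt_sq hx'.le]
  ring

section poly

variable {N : ℕ} {nrm : Fin N → V} {β : Fin N → ℝ}

/-- the directional inequality for an arbitrary vector -/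
lemma vec_le {h : V → ℝ} (hc : ConvexOn ℝ univ h) (h0 : ∀ z, 0 ≤ h z) (x : V)
    (hn : ∀ j, ‖nrm j‖ = 1) (hbdd : Bornology.IsBounded (Poly nrm β)) :
    ∫⁻ z in Poly nrm β, bulkG h x z ≤
      ∑ j, ENNReal.ofReal |⟪nrm j, x⟫_ℝ| *
        ∫⁻ z in Piece nrm β j, bdF h z ∂μHE[finrank ℝ V - 1] := by
  by_cases hx : x = 0
  · subst hx
    simp [bulkG_zero]
  have hx' : 0 < ‖x‖ := norm_pos_iff.2 hx
  have e1 : ‖(‖x‖)⁻¹ • x‖ = 1 := by
    rw [norm_smul, norm_inv, norm_norm, inv_mul_cancel₀ hx'.ne']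
  have h1 := dir_le (nrm := nrm) (β := β) hc h0 e1 hn hbdd
  calc ∫⁻ z in Poly nrm β, bulkG h x z
      = ∫⁻ z in Poly nrm β, ENNReal.ofReal ‖x‖ * bulkG h ((‖x‖)⁻¹ • x) z := by
        apply lintegral_congr
        intro z
        exact bulkG_homog h hx z
    _ = ENNReal.ofReal ‖x‖ * ∫⁻ z in Poly nrm β, bulkG h ((‖x‖)⁻¹ • x) z := by
        rw [lintegral_const_mul _ (measurable_bulkG (continuous_of_convex hc) _)]
    _ ≤ ENNReal.ofReal ‖x‖ * ∑ j, ENNReal.ofReal |⟪nrm j, (‖x‖)⁻¹ • x⟫_ℝ| *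
        ∫⁻ z in Piece nrm β j, bdF h z ∂μHE[finrank ℝ V - 1] := by gcongr
    _ = _ := by
        rw [Finset.mul_sum]
        apply Finset.sum_congr rfl
        intro j _
        rw [← mul_assoc, ← ENNReal.ofReal_mul hx'.le]
        congr 2
        rw [inner_smul_right, abs_mul, abs_of_pos (inv_pos.2 hx'), ← mul_assoc,
          mul_inv_cancel₀ hx'.ne', one_mul]

/-- pointwise averaging bound -/
lemma bulk_mul_KK_le {h : V → ℝ} (h0 : ∀ z, 0 ≤ h z) {e0 : V} (he0 : ‖e0‖ = 1) (z : V) :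
    bulk h z * KK e0 ≤ ∫⁻ x in Metric.closedBall (0 : V) 1, bulkG h x z := by
  set p := gradient h z with hp
  obtain ⟨u, hu, hpu⟩ : ∃ u : V, ‖u‖ = 1 ∧ p = ‖p‖ • u := by
    by_cases hp0 : p = 0
    · exact ⟨e0, he0, by rw [hp0]; simp⟩
    · refine ⟨(‖p‖)⁻¹ • p, ?_, ?_⟩
      · rw [norm_smul, norm_inv, norm_norm, inv_mul_cancel₀ (norm_ne_zero_iff.2 hp0)]
      · rw [smul_smul, mul_inv_cancel₀ (norm_ne_zero_iff.2 hp0), one_smul]
  have hK : KK e0 = KK u := KK_eq (by rw [he0, hu])
  rw [hK]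
  unfold bulk KK
  rw [← lintegral_const_mul _ (measurable_ofReal_inner u)]
  apply lintegral_mono
  intro x
  unfold bulkG
  simp only
  rw [← ENNReal.ofReal_mul (by have := h0 z; positivity)]
  apply ENNReal.ofReal_le_ofReal
  rw [mul_assoc]
  apply mul_le_mul_of_nonneg_left _ (by have := h0 z; linarith)
  rw [fderiv_eq_inner, ← hp]
  apply Real.le_sqrt_of_sq_le
  rw [mul_pow, Real.sq_sqrt (by positivity), sq_abs]
  have h1 : ⟪p, x⟫_ℝ = ‖p‖ * ⟪u, x⟫_ℝ := by
    nth_rewrite 1 [hpu]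
    rw [real_inner_smul_left]
  rw [h1]
  have h2 : ⟪u, x⟫_ℝ ^ 2 ≤ ‖x‖ ^ 2 := by
    have := abs_real_inner_le_norm u x
    rw [hu, one_mul] at this
    rw [← sq_abs]
    exact pow_le_pow_left₀ (abs_nonneg _) this 2
  nlinarith

lemma measurable_gradient' (h : V → ℝ) : Measurable (gradient h) := by
  unfold gradient
  exact (LinearIsometryEquiv.continuous _).measurable.comp (measurable_fderiv ℝ h)

lemma measurable_bulk {h : V → ℝ} (hc : Continuous h) : Measurable (bulk h) := by
  unfold bulk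
  apply ENNReal.measurable_ofReal.comp
  apply Measurable.mul
  · exact (continuous_const.mul hc).measurable
  · apply Real.continuous_sqrt.measurable.comp
    exact measurable_const.add ((measurable_gradient' h).norm.pow_const 2)

/-- the inequality on a polytope, with the sum over the pieces of the facets -/
lemma poly_le_sum {h : V → ℝ} (hc : ConvexOn ℝ univ h) (h0 : ∀ z, 0 ≤ h z) {e0 : V}
    (he0 : ‖e0‖ = 1)
    (hn : ∀ j, ‖nrm j‖ = 1) (hbdd : Bornology.IsBounded (Poly nrm β)) :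
    ∫⁻ z in Poly nrm β, bulk h z ≤
      ∑ j, ∫⁻ z in Piece nrm β j, bdF h z ∂μHE[finrank ℝ V - 1] := by
  have hcont := continuous_of_convex hc
  set c : Fin N → ℝ≥0∞ := fun j => ∫⁻ z in Piece nrm β j, bdF h z ∂μHE[finrank ℝ V - 1] with hcdef
  have hswap : ∫⁻ z in Poly nrm β, ∫⁻ x in Metric.closedBall (0 : V) 1, bulkG h x z =
      ∫⁻ x in Metric.closedBall (0 : V) 1, ∫⁻ z in Poly nrm β, bulkG h x z := by
    apply lintegral_lintegral_swap
    apply Measurable.aemeasurable
    unfold Function.uncurry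
    unfold bulkG
    apply ENNReal.measurable_ofReal.comp
    apply Measurable.mul
    · exact ((continuous_const.mul hcont).measurable.comp measurable_fst)
    · apply Real.continuous_sqrt.measurable.comp
      apply Measurable.add
      · exact (measurable_snd.norm.pow_const 2)
      · apply Measurable.pow_const
        have : (fun p : V × V => fderiv ℝ h p.1 p.2) = fun p => ⟪gradient h p.1, p.2⟫_ℝ := by
          ext p
          exact fderiv_eq_inner h p.1 p.2
        rw [this]
        exact ((measurable_gradient' h).comp measurable_fst).inner measurable_snd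
  have h1 : KK e0 * ∫⁻ z in Poly nrm β, bulk h z ≤ KK e0 * ∑ j, c j := by
    calc KK e0 * ∫⁻ z in Poly nrm β, bulk h z
        = ∫⁻ z in Poly nrm β, bulk h z * KK e0 := by
          rw [lintegral_mul_const _ (measurable_bulk hcont), mul_comm]
      _ ≤ ∫⁻ z in Poly nrm β, ∫⁻ x in Metric.closedBall (0 : V) 1, bulkG h x z := by
          apply lintegral_mono
          intro z
          exact bulk_mul_KK_le h0 he0 z
      _ = ∫⁻ x in Metric.closedBall (0 : V) 1, ∫⁻ z in Poly nrm β, bulkG h x z := hswap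
      _ ≤ ∫⁻ x in Metric.closedBall (0 : V) 1, ∑ j, ENNReal.ofReal |⟪nrm j, x⟫_ℝ| * c j := by
          apply lintegral_mono
          intro x
          exact vec_le hc h0 x hn hbdd
      _ = ∑ j, ∫⁻ x in Metric.closedBall (0 : V) 1, ENNReal.ofReal |⟪nrm j, x⟫_ℝ| * c j := by
          apply lintegral_finsetSum
          intro j _
          exact (measurable_ofReal_inner _).mul_const _
      _ = ∑ j, KK e0 * c j := by
          apply Finset.sum_congr rfl
          intro j _
          rw [lintegral_mul_const _ (measurable_ofReal_inner _)]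
          congr 1
          exact KK_eq (by rw [hn j, he0])
      _ = KK e0 * ∑ j, c j := by rw [Finset.mul_sum]
  exact (ENNReal.mul_le_mul_iff_right (KK_ne_zero he0) (KK_ne_top he0)).1 h1

/-- a piece lies in the frontier of the polytope -/
lemma piece_subset_frontier (hn : ∀ j, ‖nrm j‖ = 1) (j : Fin N) :
    Piece nrm β j ⊆ frontier (Poly nrm β) := by
  intro z hz
  rw [isClosed_poly.frontier_eq]
  refine ⟨hz.1, ?_⟩
  intro hint
  rw [mem_interior_iff_mem_nhds, Metric.mem_nhds_iff] at hint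
  obtain ⟨ε, hε, hball⟩ := hint
  have h1 : z + (ε / 2) • nrm j ∈ Metric.ball z ε := by
    rw [mem_ball_iff_norm]
    simp only [add_sub_cancel_left]
    rw [norm_smul, hn j, Real.norm_of_nonneg (by positivity)]
    linarith
  have h2 := hball h1 j
  rw [inner_add_right, inner_smul_right, real_inner_self_eq_norm_sq, hn j, hz.2.1] at h2
  linarith

/-- **The inequality on a polytope.** -/
theorem poly_le {h : V → ℝ} (hc : ConvexOn ℝ univ h) (h0 : ∀ z, 0 ≤ h z) {e0 : V}
    (he0 : ‖e0‖ = 1)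
    (hn : ∀ j, ‖nrm j‖ = 1) (hbdd : Bornology.IsBounded (Poly nrm β)) :
    ∫⁻ z in Poly nrm β, bulk h z ≤
      ∫⁻ z in frontier (Poly nrm β), bdF h z ∂μHE[finrank ℝ V - 1] := by
  refine (poly_le_sum hc h0 he0 hn hbdd).trans ?_
  have hU := lintegral_iUnion (μ := μHE[finrank ℝ V - 1])
    (fun j => measurableSet_piece (nrm := nrm) (β := β) j)
    (fun i j hij => piece_disjoint hij) (bdF h)
  rw [tsum_fintype] at hU
  rw [← hU]
  apply lintegral_mono_set
  exact iUnion_subset (piece_subset_frontier hn)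

end poly

end MP_e9cb08
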