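import Mathlib

/-!
# Slicing a Euclidean space along a direction, and areas of pieces of hyperplanes
-/

set_option linter.unusedSectionVars false

namespace MP_e9cb08

open MeasureTheory Set Module
open scoped InnerProductSpace RealInnerProductSpace ENNReal

variable {V : Type*} [NormedAddCommGroup V] [InnerProductSpace ℝ V] [FiniteDimensional ℝ V]
  [MeasurableSpace V] [BorelSpace V]

/-- The hyperplane orthogonal to `e`. -/
noncomputable abbrev Perp (e : V) : Submodule ℝ V := (ℝ ∙ e)ᗮ

lemma inner_perp (e : V) (y : Perp e) : ⟪e, (y : V)⟫_ℝ = 0 :=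
  Submodule.mem_orthogonal_singleton_iff_inner_right.1 y.2

/-- coordinates `(t, y) ↦ t e + y` are measure preserving -/
lemma mp_decomp (e : V) (he : ‖e‖ = 1) :
    MeasurePreserving (fun p : ℝ × Perp e => p.1 • e + (p.2 : V))
      (volume.prod volume) volume := by
  have h1 : MeasurePreserving (LinearIsometryEquiv.toSpanUnitSingleton (𝕜 := ℝ) e he)
      volume volume := LinearIsometryEquiv.measurePreserving _
  have h2 : MeasurePreserving (Prod.map (LinearIsometryEquiv.toSpanUnitSingleton (𝕜 := ℝ) e he)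
      (id : Perp e → Perp e)) (volume.prod volume) (volume.prod volume) :=
    h1.prod (MeasurePreserving.id _)
  have h3 : MeasurePreserving (WithLp.toLp 2 : (ℝ ∙ e) × Perp e → WithLp 2 ((ℝ ∙ e) × Perp e))
      (volume.prod volume) volume := WithLp.volume_preserving_toLp _ _
  have h4 : MeasurePreserving (ℝ ∙ e).orthogonalDecomposition.symm volume volume :=
    LinearIsometryEquiv.measurePreserving _
  have h5 := h4.comp (h3.comp h2)
  convert h5 using 1
  funext p
  rfl

lemma finrank_perp (e : V) (he : ‖e‖ = 1) : finrank ℝ (Perp e) = finrank ℝ V - 1 := by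
  have h0 : e ≠ 0 := by
    intro h; rw [h] at he; simp at he
  have h1 : finrank ℝ (ℝ ∙ e) + finrank ℝ (Perp e) = finrank ℝ V :=
    (ℝ ∙ e).finrank_add_finrank_orthogonal
  have h2 : finrank ℝ (ℝ ∙ e) = 1 := finrank_span_singleton h0
  omega

/-- The linear part of the parametrisation of the hyperplane `⟪n, z⟫ = β` by `eᗮ`. -/
noncomputable def lamLin (e n : V) : Perp e →ₗ[ℝ] V where
  toFun y := (y : V) - (⟪n, (y : V)⟫_ℝ / ⟪n, e⟫_ℝ) • e
  map_add' x y := by
    simp only [Submodule.coe_add, inner_add_right, add_div, add_smul]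
    abel
  map_smul' c y := by
    simp only [Submodule.coe_smul, inner_smul_right, RingHom.id_apply, smul_sub, smul_smul,
      mul_div_assoc]

lemma normDet_lamLin (e n : V) (he : ‖e‖ = 1) (hn : ‖n‖ = 1) (hne : ⟪n, e⟫_ℝ ≠ 0) :
    (lamLin e n).normDet = |⟪n, e⟫_ℝ|⁻¹ := by
  set b := stdOrthonormalBasis ℝ (Perp e) with hb
  have h := (lamLin e n).normDet_sq_eq_det_gram b
  set c : ℝ := ⟪n, e⟫_ℝ with hc
  set w : Fin (finrank ℝ (Perp e)) → ℝ := fun i => ⟪n, (b i : V)⟫_ℝ / c with hw
  have hG : Matrix.gram ℝ (fun i => lamLin e n (b i)) =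
      1 + Matrix.replicateCol (Fin 1) w * Matrix.replicateRow (Fin 1) w := by
    ext i j
    have h1 : ⟪((b i : V) : V), (b j : V)⟫_ℝ = if i = j then 1 else 0 := by
      have := orthonormal_iff_ite.1 b.orthonormal i j
      simpa using this
    simp only [Matrix.gram_apply, lamLin, LinearMap.coe_mk, AddHom.coe_mk, inner_sub_left,
      inner_sub_right, inner_smul_left, inner_smul_right, h1]
    have h2 : ⟪e, (b j : V)⟫_ℝ = 0 := inner_perp e (b j)
    have h3 : ⟪(b i : V), e⟫_ℝ = 0 := by rw [real_inner_comm]; exact inner_perp e (b i)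
    simp [h2, h3, he, Matrix.mul_apply, Matrix.one_apply, hw, ← hc]
    ring
  have hdet : (1 + Matrix.replicateCol (Fin 1) w * Matrix.replicateRow (Fin 1) w).det =
      1 + w ⬝ᵥ w := Matrix.det_one_add_replicateCol_mul_replicateRow w w
  rw [hG, hdet] at h
  -- Parseval
  have hpars : ∑ i, ⟪n, (b i : V)⟫_ℝ ^ 2 = 1 - c ^ 2 := by
    have hmem : n - c • e ∈ Perp e := by
      rw [Submodule.mem_orthogonal_singleton_iff_inner_right, inner_sub_right, inner_smul_right,
        real_inner_self_eq_norm_sq, he, real_inner_comm]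
      simp [hc]
    set y0 : Perp e := ⟨n - c • e, hmem⟩ with hy0
    have h1 : ∀ i, ⟪n, (b i : V)⟫_ℝ = ⟪y0, b i⟫_ℝ := by
      intro i
      have : ⟪y0, b i⟫_ℝ = ⟪n - c • e, (b i : V)⟫_ℝ := rfl
      rw [this, inner_sub_left, inner_smul_left, inner_perp e (b i)]
      simp
    simp_rw [h1]
    rw [b.sum_sq_inner_left]
    have h2 : ‖y0‖ = ‖n - c • e‖ := rfl
    rw [h2, ← real_inner_self_eq_norm_sq, inner_sub_left, inner_sub_right, inner_sub_right,
      inner_smul_left, inner_smul_right, inner_smul_left, inner_smul_right,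
      real_inner_self_eq_norm_sq, real_inner_self_eq_norm_sq, he, hn, real_inner_comm n e, ← hc]
    simp
    ring
  have h5 : w ⬝ᵥ w = (1 - c ^ 2) / c ^ 2 := by
    rw [← hpars, dotProduct, Finset.sum_div]
    apply Finset.sum_congr rfl
    intro i _
    rw [hw]
    ring
  rw [h5] at h
  have h6 : (lamLin e n).normDet ^ 2 = (|c|⁻¹) ^ 2 := by
    have h7 : 1 + (1 - c ^ 2) / c ^ 2 = (|c|⁻¹) ^ 2 := by
      rw [inv_pow, sq_abs]
      field_simp
      ring
    rw [← h7]
    simpa using h
  have h8 : 0 ≤ (lamLin e n).normDet := LinearMap.normDet_nonneg _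
  have h9 : 0 ≤ |c|⁻¹ := by positivity
  exact (sq_eq_sq₀ h8 h9).1 h6

end MP_e9cb08
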