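import Pool.Agent.Work.MP_e9cb08_gt.Decomp

/-!
# Areas of pieces of hyperplanes
-/

set_option linter.unusedSectionVars false

namespace MP_e9cb08

open MeasureTheory Set Module
open scoped InnerProductSpace RealInnerProductSpace ENNReal

variable {V : Type*} [NormedAddCommGroup V] [InnerProductSpace ℝ V] [FiniteDimensional ℝ V]
  [MeasurableSpace V] [BorelSpace V]

/-- The parametrisation of the hyperplane `⟪n, z⟫ = β` by `eᗮ`. -/
noncomputable def lam (e n : V) (β : ℝ) (y : Perp e) : V :=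
  (y : V) + ((β - ⟪n, (y : V)⟫_ℝ) / ⟪n, e⟫_ℝ) • e

lemma lam_eq (e n : V) (β : ℝ) (y : Perp e) :
    lam e n β y = lamLin e n y + (β / ⟪n, e⟫_ℝ) • e := by
  simp only [lam, lamLin, LinearMap.coe_mk, AddHom.coe_mk, sub_div, sub_smul]
  abel

lemma continuous_lam (e n : V) (β : ℝ) : Continuous (lam e n β) := by
  unfold lam
  fun_prop

lemma inner_lam {e n : V} (hne : ⟪n, e⟫_ℝ ≠ 0) (β : ℝ) (y : Perp e) :
    ⟪n, lam e n β y⟫_ℝ = β := by
  unfold lam
  rw [inner_add_right, inner_smul_right]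
  field_simp
  ring

/-- a point of the hyperplane on the line through `y` -/
lemma lam_of_mem {e n : V} (hne : ⟪n, e⟫_ℝ ≠ 0) {β t : ℝ} {y : Perp e}
    (h : ⟪n, t • e + (y : V)⟫_ℝ = β) : lam e n β y = t • e + (y : V) := by
  unfold lam
  rw [inner_add_right, inner_smul_right] at h
  have : (β - ⟪n, (y : V)⟫_ℝ) / ⟪n, e⟫_ℝ = t := by
    rw [← h]
    field_simp
    ring
  rw [this, add_comm]

lemma exists_decomp (e : V) (he : ‖e‖ = 1) (z : V) :
    ∃ (t : ℝ) (y : Perp e), z = t • e + (y : V) := by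
  have hmem : z - ⟪e, z⟫_ℝ • e ∈ Perp e := by
    rw [Submodule.mem_orthogonal_singleton_iff_inner_right, inner_sub_right, inner_smul_right,
      real_inner_self_eq_norm_sq, he]
    simp
  exact ⟨⟪e, z⟫_ℝ, ⟨_, hmem⟩, by simp⟩

lemma euclideanHausdorff_lam_image {e n : V} (he : ‖e‖ = 1) (hn : ‖n‖ = 1)
    (hne : ⟪n, e⟫_ℝ ≠ 0) (β : ℝ) (S : Set (Perp e)) :
    μHE[finrank ℝ V - 1] (lam e n β '' S) =
      ENNReal.ofReal (|⟪n, e⟫_ℝ|⁻¹) * volume S := by
  have h1 : lam e n β '' S = (fun z => z + (β / ⟪n, e⟫_ℝ) • e) '' (lamLin e n '' S) := by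
    rw [image_image]
    apply image_congr
    intro y _
    exact lam_eq e n β y
  have h2 : Isometry (fun z : V => z + (β / ⟪n, e⟫_ℝ) • e) := isometry_add_right _
  rw [h1, h2.euclideanHausdorffMeasure_image, ← finrank_perp e he,
    LinearMap.euclideanHausdorffMeasure_image_eq_normDet_mul_volume,
    normDet_lamLin e n he hn hne]

lemma map_lam {e n : V} (he : ‖e‖ = 1) (hn : ‖n‖ = 1)
    (hne : ⟪n, e⟫_ℝ ≠ 0) (β : ℝ) :
    (volume : Measure (Perp e)).map (lam e n β) =
      ENNReal.ofReal |⟪n, e⟫_ℝ| • (μHE[finrank ℝ V - 1]).restrict {z | ⟪n, z⟫_ℝ = β} := by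
  ext B hB
  rw [Measure.map_apply (continuous_lam e n β).measurable hB, Measure.smul_apply,
    Measure.restrict_apply hB, smul_eq_mul]
  have h1 : B ∩ {z | ⟪n, z⟫_ℝ = β} = lam e n β '' (lam e n β ⁻¹' B) := by
    ext z
    constructor
    · rintro ⟨hz1, hz2⟩
      obtain ⟨t, y, rfl⟩ := exists_decomp e he z
      have := lam_of_mem hne hz2
      refine ⟨y, ?_, this⟩
      rw [mem_preimage, this]
      exact hz1
    · rintro ⟨y, hy, rfl⟩
      exact ⟨hy, inner_lam hne β y⟩
  rw [h1, euclideanHausdorff_lam_image he hn hne, ← mul_assoc,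
    ← ENNReal.ofReal_mul (abs_nonneg _), mul_inv_cancel₀ (abs_ne_zero.2 hne)]
  simp

/-- the change of variables for a piece of a hyperplane -/
lemma lintegral_lam {e n : V} (he : ‖e‖ = 1) (hn : ‖n‖ = 1)
    (hne : ⟪n, e⟫_ℝ ≠ 0) (β : ℝ) {A : Set V} (hA : MeasurableSet A)
    (hAH : A ⊆ {z | ⟪n, z⟫_ℝ = β}) {F : V → ℝ≥0∞} (hF : Measurable F) :
    ∫⁻ y : Perp e, A.indicator F (lam e n β y) =
      ENNReal.ofReal |⟪n, e⟫_ℝ| * ∫⁻ z in A, F z ∂μHE[finrank ℝ V - 1] := by
  rw [← lintegral_map (hF.indicator hA) (continuous_lam e n β).measurable,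
    map_lam he hn hne, lintegral_smul_measure, lintegral_indicator hA,
    Measure.restrict_restrict hA, inter_eq_left.2 hAH, smul_eq_mul]

/-- the lines parallel to a hyperplane which meet it form a null set -/
lemma volume_bad {e n : V} (hn : ‖n‖ = 1) (hne : ⟪n, e⟫_ℝ = 0) (β : ℝ) :
    volume {y : Perp e | ⟪n, (y : V)⟫_ℝ = β} = 0 := by
  set s : AffineSubspace ℝ (Perp e) :=
    { carrier := {y : Perp e | ⟪n, (y : V)⟫_ℝ = β}
      smul_vsub_vadd_mem' := by
        intro c p1 p2 p3 h1 h2 h3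
        simp only [mem_ofPred_eq, vsub_eq_sub, vadd_eq_add, Submodule.coe_add,
          Submodule.coe_smul, Submodule.coe_sub, inner_add_right, inner_smul_right,
          inner_sub_right] at h1 h2 h3 ⊢
        rw [h1, h2, h3]
        simp } with hs
  have hns : s ≠ ⊤ := by
    intro htop
    have h1 : ∀ y : Perp e, ⟪n, (y : V)⟫_ℝ = β := by
      intro y
      have : y ∈ s := by rw [htop]; trivial
      exact this
    have hmem : n ∈ Perp e := by
      rw [Submodule.mem_orthogonal_singleton_iff_inner_right, real_inner_comm]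
      exact hne
    have h2 := h1 0
    have h3 := h1 ⟨n, hmem⟩
    simp only [Submodule.coe_zero, inner_zero_right] at h2
    rw [← h2] at h3
    simp only [real_inner_self_eq_norm_sq, hn] at h3
    norm_num at h3
  exact Measure.addHaar_affineSubspace volume s hns

end MP_e9cb08
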