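import Pool.Agent.Work.MP_e9cb08_gt.Approx

/-!
# The inequality with Bochner integrals
-/

set_option linter.unusedSectionVars false

namespace MP_e9cb08

open MeasureTheory Set Module
open scoped InnerProductSpace RealInnerProductSpace ENNReal NNReal

variable {V : Type*} [NormedAddCommGroup V] [InnerProductSpace ℝ V] [FiniteDimensional ℝ V]
  [MeasurableSpace V] [BorelSpace V]

lemma integrable_bd {h : V → ℝ} (hc : ConvexOn ℝ univ h) {C : Set V} (hC : IsCompact C)
    (hconv : Convex ℝ C) :
    IntegrableOn (fun y => ‖y‖ ^ 2 + h y ^ 2) (frontier C) μHE[finrank ℝ V - 1] := by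
  have hcont := continuous_of_convex hc
  have hfin := frontier_finite hC hconv
  have hfc : IsCompact (frontier C) := by
    apply Metric.isCompact_of_isClosed_isBounded isClosed_frontier
    exact hC.isBounded.closure.subset frontier_subset_closure
  obtain ⟨M, hM⟩ := hfc.exists_bound_of_continuousOn (continuous_F hcont).continuousOn
  apply Measure.integrableOn_of_bounded hfin.ne (continuous_F hcont).aestronglyMeasurable (M := M)
  rw [ae_restrict_iff' isClosed_frontier.measurableSet]
  filter_upwards with y hy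
  exact hM y hy

lemma lintegral_bd {h : V → ℝ} (hc : ConvexOn ℝ univ h) {C : Set V} (hC : IsCompact C)
    (hconv : Convex ℝ C) :
    ∫⁻ z in frontier C, bdF h z ∂μHE[finrank ℝ V - 1] =
      ENNReal.ofReal (∫ y in frontier C, (‖y‖ ^ 2 + h y ^ 2) ∂μHE[finrank ℝ V - 1]) := by
  rw [ofReal_integral_eq_lintegral_ofReal (integrable_bd hc hC hconv)]
  · rfl
  · filter_upwards with y
    positivity

/-- **The inequality**, constant `2`, with Bochner integrals, in any finite-dimensional
Euclidean space. -/
theorem main_integral {h : V → ℝ} (hc : ConvexOn ℝ univ h) (h0 : ∀ z, 0 ≤ h z) {e0 : V}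
    (he0 : ‖e0‖ = 1) {C : Set V} (hC : IsCompact C) (hconv : Convex ℝ C) :
    IntegrableOn (fun y => ‖y‖ ^ 2 + h y ^ 2) (frontier C) μHE[finrank ℝ V - 1] ∧
    IntegrableOn (fun z => h z * √(1 + ‖gradient h z‖ ^ 2)) C ∧
    2 * ∫ z in C, h z * √(1 + ‖gradient h z‖ ^ 2) ≤
      ∫ y in frontier C, (‖y‖ ^ 2 + h y ^ 2) ∂μHE[finrank ℝ V - 1] := by
  have hcont := continuous_of_convex hc
  have hmain := main_lintegral hc h0 he0 hC hconv
  rw [lintegral_bd hc hC hconv] at hmain
  have hmeas : Measurable fun z => 2 * h z * √(1 + ‖gradient h z‖ ^ 2) := by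
    apply Measurable.mul
    · exact (continuous_const.mul hcont).measurable
    · apply Real.continuous_sqrt.measurable.comp
      exact measurable_const.add ((measurable_gradient' h).norm.pow_const 2)
  have hnn : ∀ z, 0 ≤ 2 * h z * √(1 + ‖gradient h z‖ ^ 2) := by
    intro z
    have := h0 z
    positivity
  have hint2 : IntegrableOn (fun z => 2 * h z * √(1 + ‖gradient h z‖ ^ 2)) C := by
    refine ⟨hmeas.aestronglyMeasurable, ?_⟩
    rw [hasFiniteIntegral_iff_ofReal (by filter_upwards with z using hnn z)]
    exact hmain.trans_lt ENNReal.ofReal_lt_top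
  have hint : IntegrableOn (fun z => h z * √(1 + ‖gradient h z‖ ^ 2)) C := by
    have := hint2.const_mul (1 / 2 : ℝ)
    refine this.congr ?_
    filter_upwards with z
    ring
  refine ⟨integrable_bd hc hC hconv, hint, ?_⟩
  have h1 : ∫⁻ z in C, bulk h z =
      ENNReal.ofReal (∫ z in C, 2 * h z * √(1 + ‖gradient h z‖ ^ 2)) := by
    rw [ofReal_integral_eq_lintegral_ofReal hint2]
    · rfl
    · filter_upwards with z using hnn z
  rw [h1] at hmain
  have hJ : 0 ≤ ∫ y in frontier C, (‖y‖ ^ 2 + h y ^ 2) ∂μHE[finrank ℝ V - 1] := by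
    apply integral_nonneg
    intro y
    positivity
  have h2 := (ENNReal.ofReal_le_ofReal_iff hJ).1 hmain
  rw [← integral_const_mul]
  refine le_trans (le_of_eq ?_) h2
  apply integral_congr_ae
  filter_upwards with z
  ring

end MP_e9cb08
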