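import Mathlib

/-!
# The planar inequality

For a nonnegative convex `φ : ℝ → ℝ` with right derivative `p` and `a ≤ b`,
`2 ∫_a^b φ √(1 + p²) ≤ φ(a)² + φ(b)² + (b - a)²/2`.
-/

namespace MP_e9cb08

open MeasureTheory Set

/-- `θ(q) = √(1+q²) - |q|`. -/
noncomputable def th (q : ℝ) : ℝ := √(1 + q ^ 2) - |q|

lemma sqrt_eq_abs_add_th (q : ℝ) : √(1 + q ^ 2) = |q| + th q := by
  unfold th; ring

lemma th_nonneg (q : ℝ) : 0 ≤ th q := by
  unfold th
  have : |q| ≤ √(1 + q ^ 2) := by
    rw [← Real.sqrt_sq_eq_abs]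
    exact Real.sqrt_le_sqrt (by linarith)
  linarith

lemma th_eq (q : ℝ) : th q ^ 2 + 2 * |q| * th q = 1 := by
  unfold th
  have h1 : √(1 + q ^ 2) ^ 2 = 1 + q ^ 2 := Real.sq_sqrt (by positivity)
  have h2 : |q| ^ 2 = q ^ 2 := sq_abs q
  nlinarith

lemma th_le_one (q : ℝ) : th q ≤ 1 := by
  have h := th_eq q
  have h0 := th_nonneg q
  have h1 := abs_nonneg q
  nlinarith [mul_nonneg h1 h0]

lemma th_sq_le_one (q : ℝ) : th q ^ 2 ≤ 1 := by
  have h0 := th_nonneg q
  have h1 := th_le_one q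
  nlinarith

lemma th_anti {p q : ℝ} (h : |p| ≤ |q|) : th q ≤ th p := by
  by_contra hlt
  push Not at hlt
  have hp := th_eq p
  have hq := th_eq q
  have h0 := th_nonneg p
  have h0' := th_nonneg q
  have h1 := abs_nonneg p
  have h2 : th p ^ 2 < th q ^ 2 := by nlinarith
  have h3 : |p| * th p ≤ |q| * th q := by
    have := mul_le_mul h hlt.le h0 (abs_nonneg q)
    exact this
  nlinarith

lemma continuous_th : Continuous th := by
  unfold th
  fun_prop

/-- helper: congruence of interval integrals on the open interval -/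
lemma integral_congr_Ioo' {f g : ℝ → ℝ} {a b : ℝ} (hab : a ≤ b)
    (h : ∀ x ∈ Ioo a b, f x = g x) : ∫ x in a..b, f x = ∫ x in a..b, g x := by
  rw [intervalIntegral.integral_of_le hab, intervalIntegral.integral_of_le hab,
    integral_Ioc_eq_integral_Ioo, integral_Ioc_eq_integral_Ioo]
  exact setIntegral_congr_fun measurableSet_Ioo h

lemma th_comp_antitoneOn {q : ℝ → ℝ} {a b : ℝ} (hq : MonotoneOn q (Icc a b))
    (hq0 : ∀ x ∈ Icc a b, 0 ≤ q x) : AntitoneOn (fun x => th (q x)) (Icc a b) := by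
  intro x hx y hy hxy
  apply th_anti
  rw [abs_of_nonneg (hq0 x hx), abs_of_nonneg (hq0 y hy)]
  exact hq hx hy hxy

/-- monotone averaging -/
lemma avg_mono {ψ : ℝ → ℝ} {a b x : ℝ} (hx : x ∈ Icc a b) (hψ : MonotoneOn ψ (Icc a b)) :
    (b - a) * ∫ s in a..x, ψ s ≤ (x - a) * ∫ s in a..b, ψ s := by
  have h1 : IntervalIntegrable ψ volume a x := by
    apply MonotoneOn.intervalIntegrable
    rw [uIcc_of_le hx.1]
    exact hψ.mono (Icc_subset_Icc le_rfl hx.2)
  have h2 : IntervalIntegrable ψ volume x b := by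
    apply MonotoneOn.intervalIntegrable
    rw [uIcc_of_le hx.2]
    exact hψ.mono (Icc_subset_Icc hx.1 le_rfl)
  have e1 : ∫ s in a..x, ψ s ≤ (x - a) * ψ x := by
    have : ∫ s in a..x, ψ s ≤ ∫ s in a..x, ψ x := by
      apply intervalIntegral.integral_mono_on hx.1 h1 (by simp)
      intro s hs
      exact hψ ⟨hs.1, hs.2.trans hx.2⟩ hx hs.2
    simpa using this
  have e2 : (b - x) * ψ x ≤ ∫ s in x..b, ψ s := by
    have : ∫ s in x..b, ψ x ≤ ∫ s in x..b, ψ s := by
      apply intervalIntegral.integral_mono_on hx.2 (by simp) h2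
      intro s hs
      exact hψ hx ⟨hx.1.trans hs.1, hs.2⟩ hs.1
    simpa using this
  have e3 : ∫ s in a..b, ψ s = (∫ s in a..x, ψ s) + ∫ s in x..b, ψ s :=
    (intervalIntegral.integral_add_adjacent_intervals h1 h2).symm
  rw [e3]
  have h3 : 0 ≤ x - a := by linarith [hx.1]
  have h4 : 0 ≤ b - x := by linarith [hx.2]
  nlinarith [mul_le_mul_of_nonneg_left e1 h4, mul_le_mul_of_nonneg_left e2 h3]

lemma branch_pointwise {q : ℝ → ℝ} {a b x : ℝ} (hx : x ∈ Icc a b)
    (hq : MonotoneOn q (Icc a b)) (hq0 : ∀ x ∈ Icc a b, 0 ≤ q x) :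
    (∫ s in a..x, q s) * th (q x) ≤ ∫ s in a..x, (1 - th (q s) ^ 2) / 2 := by
  have hsub : Icc a x ⊆ Icc a b := Icc_subset_Icc le_rfl hx.2
  have h1 : IntervalIntegrable q volume a x := by
    apply MonotoneOn.intervalIntegrable
    rw [uIcc_of_le hx.1]
    exact hq.mono hsub
  have hanti := th_comp_antitoneOn hq hq0
  have hmono : MonotoneOn (fun s => (1 - th (q s) ^ 2) / 2) (Icc a x) := by
    intro s hs t ht hst
    have := hanti (hsub hs) (hsub ht) hst
    have h0 := th_nonneg (q t)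
    simp only at this ⊢
    nlinarith
  have h2 : IntervalIntegrable (fun s => (1 - th (q s) ^ 2) / 2) volume a x := by
    apply MonotoneOn.intervalIntegrable
    rw [uIcc_of_le hx.1]
    exact hmono
  rw [← intervalIntegral.integral_mul_const]
  apply intervalIntegral.integral_mono_on hx.1 (h1.mul_const _) h2
  intro s hs
  have hs' : s ∈ Icc a b := hsub hs
  have e1 := th_eq (q s)
  rw [abs_of_nonneg (hq0 s hs')] at e1
  have e2 := hanti hs' hx hs.2
  simp only at e2
  nlinarith [mul_le_mul_of_nonneg_left e2 (hq0 s hs')]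

lemma branch {q : ℝ → ℝ} {a b : ℝ} (hab : a ≤ b)
    (hq : MonotoneOn q (Icc a b)) (hq0 : ∀ x ∈ Icc a b, 0 ≤ q x) :
    ∫ x in a..b, (∫ s in a..x, q s) * th (q x) ≤
      (b - a) / 4 * ∫ x in a..b, (1 - th (q x) ^ 2) := by
  rcases hab.eq_or_lt with rfl | hlt
  · simp
  have hanti := th_comp_antitoneOn hq hq0
  have hmono : MonotoneOn (fun s => (1 - th (q s) ^ 2) / 2) (Icc a b) := by
    intro s hs t ht hst
    have := hanti hs ht hst
    have h0 := th_nonneg (q t)
    simp only at this ⊢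
    nlinarith
  set Ψ := ∫ s in a..b, (1 - th (q s) ^ 2) / 2 with hΨ
  have hint1 : IntervalIntegrable (fun x => (∫ s in a..x, q s) * th (q x)) volume a b := by
    have hqi : IntervalIntegrable q volume a b := by
      apply MonotoneOn.intervalIntegrable
      rwa [uIcc_of_le hab]
    have hc : ContinuousOn (fun x => ∫ s in a..x, q s) (uIcc a b) :=
      intervalIntegral.continuousOn_primitive_interval' hqi left_mem_uIcc
    have hth : IntervalIntegrable (fun x => th (q x)) volume a b := by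
      apply AntitoneOn.intervalIntegrable
      rwa [uIcc_of_le hab]
    exact hth.continuousOn_mul hc
  have hkey : ∫ x in a..b, (∫ s in a..x, q s) * th (q x) ≤
      ∫ x in a..b, (x - a) * (Ψ / (b - a)) := by
    apply intervalIntegral.integral_mono_on hab hint1
    · apply Continuous.intervalIntegrable; fun_prop
    intro x hx
    have h1 := branch_pointwise hx hq hq0
    have h2 := avg_mono hx hmono
    refine h1.trans ?_
    rw [← hΨ] at h2
    have hpos : 0 < b - a := by linarith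
    have : (x - a) * (Ψ / (b - a)) = (x - a) * Ψ / (b - a) := by ring
    rw [this, le_div_iff₀ hpos, mul_comm]
    exact h2
  refine hkey.trans (le_of_eq ?_)
  have hpos : b - a ≠ 0 := by
    have : 0 < b - a := by linarith
    exact this.ne'
  have hΨ2 : Ψ = (∫ x in a..b, (1 - th (q x) ^ 2)) / 2 := by
    rw [hΨ, intervalIntegral.integral_div]
  rw [intervalIntegral.integral_mul_const, hΨ2]
  have : ∫ x in a..b, (x - a) = (b - a) ^ 2 / 2 := by
    simp [intervalIntegral.integral_sub]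
    ring
  rw [this]
  field_simp
  ring

lemma branch_left {q : ℝ → ℝ} {a b : ℝ} (hab : a ≤ b)
    (hq : AntitoneOn q (Icc a b)) (hq0 : ∀ x ∈ Icc a b, 0 ≤ q x) :
    ∫ x in a..b, (∫ s in x..b, q s) * th (q x) ≤
      (b - a) / 4 * ∫ x in a..b, (1 - th (q x) ^ 2) := by
  have hmem : ∀ x, x ∈ Icc (-b) (-a) → -x ∈ Icc a b := by
    intro x hx
    exact ⟨by linarith [hx.2], by linarith [hx.1]⟩
  have h := branch (q := fun x => q (-x)) (a := -b) (b := -a) (by linarith)
    (by
      intro x hx y hy hxy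
      exact hq (hmem y hy) (hmem x hx) (by linarith))
    (by
      intro x hx
      exact hq0 _ (hmem x hx))
  have e1 : ∀ x, ∫ s in (-b)..x, q (-s) = ∫ s in (-x)..b, q s := by
    intro x
    rw [intervalIntegral.integral_comp_neg (fun s => q s)]
    simp
  simp only [e1] at h
  rw [intervalIntegral.integral_comp_neg (fun x => (∫ s in x..b, q s) * th (q x)),
    intervalIntegral.integral_comp_neg (fun x => (1 - th (q x) ^ 2))] at h
  simp only [neg_neg] at h
  have e2 : (-a - -b) / 4 = (b - a) / 4 := by ring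
  rw [e2] at h
  exact h

/-- right derivative -/
noncomputable def rd (φ : ℝ → ℝ) (x : ℝ) : ℝ := derivWithin φ (Ioi x) x

variable {φ : ℝ → ℝ}

lemma rd_mono (hφ : ConvexOn ℝ univ φ) : Monotone (rd φ) := by
  have := hφ.monotoneOn_rightDeriv
  rw [interior_univ] at this
  intro x y hxy
  exact this (mem_univ _) (mem_univ _) hxy

lemma rd_hasDeriv (hφ : ConvexOn ℝ univ φ) (x : ℝ) :
    HasDerivWithinAt φ (rd φ x) (Ioi x) x :=
  hφ.hasDerivWithinAt_rightDeriv_of_mem_interior (by simp)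

lemma cont_of_convex (hφ : ConvexOn ℝ univ φ) : Continuous φ := by
  have := hφ.continuousOn isOpen_univ
  exact continuousOn_univ.mp this

lemma ftc1 (hφ : ConvexOn ℝ univ φ) (a b : ℝ) : ∫ x in a..b, rd φ x = φ b - φ a := by
  apply intervalIntegral.integral_eq_sub_of_hasDeriv_right
  · exact (cont_of_convex hφ).continuousOn
  · intro x _
    exact rd_hasDeriv hφ x
  · exact (rd_mono hφ).intervalIntegrable

lemma ftc2 (hφ : ConvexOn ℝ univ φ) (a b : ℝ) :
    ∫ x in a..b, 2 * φ x * rd φ x = φ b ^ 2 - φ a ^ 2 := by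
  apply intervalIntegral.integral_eq_sub_of_hasDeriv_right
  · exact ((cont_of_convex hφ).pow 2).continuousOn
  · intro x _
    have := (rd_hasDeriv hφ x).fun_pow 2
    simpa using this
  · apply IntervalIntegrable.continuousOn_mul
    · exact (rd_mono hφ).intervalIntegrable
    · exact (continuous_const.mul (cont_of_convex hφ)).continuousOn

lemma ii_th (hφ : ConvexOn ℝ univ φ) (a b : ℝ) :
    IntervalIntegrable (fun x => th (rd φ x)) volume a b := by
  have hm : Measurable (fun x => th (rd φ x)) :=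
    continuous_th.measurable.comp (rd_mono hφ).measurable
  have h1 : IntervalIntegrable (fun _ : ℝ => (1 : ℝ)) volume a b := by simp
  apply h1.mono_fun hm.aestronglyMeasurable
  filter_upwards with x
  rw [Real.norm_of_nonneg (th_nonneg _)]
  simpa using th_le_one _

lemma ii_th2 (hφ : ConvexOn ℝ univ φ) (a b : ℝ) :
    IntervalIntegrable (fun x => th (rd φ x) ^ 2) volume a b := by
  have hm : Measurable (fun x => th (rd φ x) ^ 2) :=
    (continuous_th.measurable.comp (rd_mono hφ).measurable).pow_const 2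
  have h1 : IntervalIntegrable (fun _ : ℝ => (1 : ℝ)) volume a b := by simp
  apply h1.mono_fun hm.aestronglyMeasurable
  filter_upwards with x
  rw [Real.norm_of_nonneg (by positivity)]
  simpa using th_sq_le_one _

lemma ii_abs (hφ : ConvexOn ℝ univ φ) (a b : ℝ) :
    IntervalIntegrable (fun x => |rd φ x|) volume a b :=
  (rd_mono hφ).intervalIntegrable.abs

lemma ii_phi_abs (hφ : ConvexOn ℝ univ φ) (a b : ℝ) :
    IntervalIntegrable (fun x => 2 * φ x * |rd φ x|) volume a b :=
  (ii_abs hφ a b).continuousOn_mul (continuous_const.mul (cont_of_convex hφ)).continuousOn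

lemma ii_phi_th (hφ : ConvexOn ℝ univ φ) (a b : ℝ) :
    IntervalIntegrable (fun x => φ x * th (rd φ x)) volume a b :=
  (ii_th hφ a b).continuousOn_mul (cont_of_convex hφ).continuousOn

lemma rd_nonneg_right (hφ : ConvexOn ℝ univ φ) {c b : ℝ} (hmin : ∀ x ∈ Icc c b, φ c ≤ φ x)
    {x : ℝ} (hx : c < x) (hxb : x ≤ b) : 0 ≤ rd φ x := by
  have h1 : ∫ s in c..x, rd φ s ≤ ∫ s in c..x, rd φ x := by
    apply intervalIntegral.integral_mono_on hx.le (rd_mono hφ).intervalIntegrable (by simp)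
    intro s hs
    exact rd_mono hφ hs.2
  rw [ftc1 hφ] at h1
  simp at h1
  have h2 := hmin x ⟨hx.le, hxb⟩
  have h3 : 0 < x - c := by linarith
  by_contra hneg
  push Not at hneg
  nlinarith

lemma rd_nonpos_left (hφ : ConvexOn ℝ univ φ) {a c : ℝ} (hmin : ∀ x ∈ Icc a c, φ c ≤ φ x)
    {x : ℝ} (hx : x < c) (hxa : a ≤ x) : rd φ x ≤ 0 := by
  have h1 : ∫ s in x..c, rd φ x ≤ ∫ s in x..c, rd φ s := by
    apply intervalIntegral.integral_mono_on hx.le (by simp) (rd_mono hφ).intervalIntegrable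
    intro s hs
    exact rd_mono hφ hs.1
  rw [ftc1 hφ] at h1
  simp at h1
  have h2 := hmin x ⟨hxa, hx.le⟩
  have h3 : 0 < c - x := by linarith
  by_contra hneg
  push Not at hneg
  nlinarith

lemma right_branch (hφ : ConvexOn ℝ univ φ) {c b : ℝ} (hcb : c ≤ b)
    (hmin : ∀ x ∈ Icc c b, φ c ≤ φ x) :
    (∫ x in c..b, 2 * φ x * |rd φ x|) = φ b ^ 2 - φ c ^ 2 ∧
    (∫ x in c..b, φ x * th (rd φ x)) ≤ φ c * (∫ x in c..b, th (rd φ x)) +
      (b - c) / 4 * ∫ x in c..b, (1 - th (rd φ x) ^ 2) := by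
  have hnn : ∀ x ∈ Ioc c b, 0 ≤ rd φ x := fun x hx => rd_nonneg_right hφ hmin hx.1 hx.2
  constructor
  · rw [← ftc2 hφ c b]
    apply integral_congr_Ioo' hcb
    intro x hx
    rw [abs_of_nonneg (hnn x ⟨hx.1, hx.2.le⟩)]
  · -- q = max p 0
    set q : ℝ → ℝ := fun x => max (rd φ x) 0 with hq
    have hqm : Monotone q := fun x y hxy => max_le_max (rd_mono hφ hxy) le_rfl
    have hq0 : ∀ x, 0 ≤ q x := fun x => le_max_right _ _
    have hqe : ∀ x ∈ Ioc c b, q x = rd φ x := fun x hx => max_eq_left (hnn x hx)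
    have hb := branch hcb (hqm.monotoneOn _) (fun x _ => hq0 x)
    have e1 : ∫ x in c..b, (∫ s in c..x, q s) * th (q x) =
        ∫ x in c..b, (φ x - φ c) * th (rd φ x) := by
      apply integral_congr_Ioo' hcb
      intro x hx
      rw [hqe x ⟨hx.1, hx.2.le⟩]
      congr 1
      rw [← ftc1 hφ c x]
      apply integral_congr_Ioo' hx.1.le
      intro s hs
      exact hqe s ⟨hs.1, (hs.2.trans hx.2).le⟩
    have e2 : ∫ x in c..b, (1 - th (q x) ^ 2) = ∫ x in c..b, (1 - th (rd φ x) ^ 2) := by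
      apply integral_congr_Ioo' hcb
      intro x hx
      rw [hqe x ⟨hx.1, hx.2.le⟩]
    rw [e1, e2] at hb
    have e3 : ∫ x in c..b, (φ x - φ c) * th (rd φ x) =
        (∫ x in c..b, φ x * th (rd φ x)) - φ c * ∫ x in c..b, th (rd φ x) := by
      rw [← intervalIntegral.integral_const_mul, ← intervalIntegral.integral_sub
        (ii_phi_th hφ c b) ((ii_th hφ c b).const_mul _)]
      congr 1
      ext x
      ring
    rw [e3] at hb
    linarith

lemma left_branch (hφ : ConvexOn ℝ univ φ) {a c : ℝ} (hac : a ≤ c)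
    (hmin : ∀ x ∈ Icc a c, φ c ≤ φ x) :
    (∫ x in a..c, 2 * φ x * |rd φ x|) = φ a ^ 2 - φ c ^ 2 ∧
    (∫ x in a..c, φ x * th (rd φ x)) ≤ φ c * (∫ x in a..c, th (rd φ x)) +
      (c - a) / 4 * ∫ x in a..c, (1 - th (rd φ x) ^ 2) := by
  have hnp : ∀ x ∈ Ico a c, rd φ x ≤ 0 := fun x hx => rd_nonpos_left hφ hmin hx.2 hx.1
  constructor
  · have : φ a ^ 2 - φ c ^ 2 = - ∫ x in a..c, 2 * φ x * rd φ x := by
      rw [ftc2 hφ a c]; ring
    rw [this, ← intervalIntegral.integral_neg]
    apply integral_congr_Ioo' hac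
    intro x hx
    rw [abs_of_nonpos (hnp x ⟨hx.1.le, hx.2⟩)]
    ring
  · set q : ℝ → ℝ := fun x => max (-rd φ x) 0 with hq
    have hqm : Antitone q := fun x y hxy => max_le_max (neg_le_neg (rd_mono hφ hxy)) le_rfl
    have hq0 : ∀ x, 0 ≤ q x := fun x => le_max_right _ _
    have hqe : ∀ x ∈ Ico a c, q x = - rd φ x :=
      fun x hx => max_eq_left (by linarith [hnp x hx])
    have hthneg : ∀ t : ℝ, th (-t) = th t := by
      intro t
      unfold th
      rw [neg_sq, abs_neg]
    have hb := branch_left hac (hqm.antitoneOn _) (fun x _ => hq0 x)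
    have e1 : ∫ x in a..c, (∫ s in x..c, q s) * th (q x) =
        ∫ x in a..c, (φ x - φ c) * th (rd φ x) := by
      apply integral_congr_Ioo' hac
      intro x hx
      rw [hqe x ⟨hx.1.le, hx.2⟩, hthneg]
      congr 1
      have h1 : φ x - φ c = - ∫ s in x..c, rd φ s := by rw [ftc1 hφ x c]; ring
      rw [h1, ← intervalIntegral.integral_neg]
      apply integral_congr_Ioo' hx.2.le
      intro s hs
      exact hqe s ⟨(hx.1.trans hs.1).le, hs.2⟩
    have e2 : ∫ x in a..c, (1 - th (q x) ^ 2) = ∫ x in a..c, (1 - th (rd φ x) ^ 2) := by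
      apply integral_congr_Ioo' hac
      intro x hx
      rw [hqe x ⟨hx.1.le, hx.2⟩, hthneg]
    rw [e1, e2] at hb
    have e3 : ∫ x in a..c, (φ x - φ c) * th (rd φ x) =
        (∫ x in a..c, φ x * th (rd φ x)) - φ c * ∫ x in a..c, th (rd φ x) := by
      rw [← intervalIntegral.integral_const_mul, ← intervalIntegral.integral_sub
        (ii_phi_th hφ a c) ((ii_th hφ a c).const_mul _)]
      congr 1
      ext x
      ring
    rw [e3] at hb
    linarith

/-- **The planar inequality.** -/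
theorem planar (hφ : ConvexOn ℝ univ φ) (h0 : ∀ x, 0 ≤ φ x) {a b : ℝ} (hab : a ≤ b) :
    ∫ x in a..b, 2 * φ x * √(1 + rd φ x ^ 2) ≤ φ a ^ 2 + φ b ^ 2 + (b - a) ^ 2 / 2 := by
  rcases hab.eq_or_lt with rfl | hlt
  · simp; positivity
  obtain ⟨c, hc, hcmin⟩ := (isCompact_Icc (a := a) (b := b)).exists_isMinOn ⟨a, left_mem_Icc.2 hab⟩
    (cont_of_convex hφ).continuousOn
  have hmin : ∀ x ∈ Icc a b, φ c ≤ φ x := fun x hx => hcmin hx
  obtain ⟨r1, r2⟩ := right_branch hφ hc.2 (fun x hx => hmin x ⟨hc.1.trans hx.1, hx.2⟩)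
  obtain ⟨l1, l2⟩ := left_branch hφ hc.1 (fun x hx => hmin x ⟨hx.1, hx.2.trans hc.2⟩)
  have hm0 := h0 c
  -- split the integral
  have s0 : ∫ x in a..b, 2 * φ x * √(1 + rd φ x ^ 2) =
      (∫ x in a..b, 2 * φ x * |rd φ x|) + 2 * ∫ x in a..b, φ x * th (rd φ x) := by
    rw [← intervalIntegral.integral_const_mul, ← intervalIntegral.integral_add
      (ii_phi_abs hφ a b) ((ii_phi_th hφ a b).const_mul _)]
    congr 1
    ext x
    rw [sqrt_eq_abs_add_th]
    ring
  have s1 : ∫ x in a..b, 2 * φ x * |rd φ x| =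
      (∫ x in a..c, 2 * φ x * |rd φ x|) + ∫ x in c..b, 2 * φ x * |rd φ x| :=
    (intervalIntegral.integral_add_adjacent_intervals (ii_phi_abs hφ a c)
      (ii_phi_abs hφ c b)).symm
  have s2 : ∫ x in a..b, φ x * th (rd φ x) =
      (∫ x in a..c, φ x * th (rd φ x)) + ∫ x in c..b, φ x * th (rd φ x) :=
    (intervalIntegral.integral_add_adjacent_intervals (ii_phi_th hφ a c)
      (ii_phi_th hφ c b)).symm
  have s3 : ∫ x in a..b, th (rd φ x) =
      (∫ x in a..c, th (rd φ x)) + ∫ x in c..b, th (rd φ x) :=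
    (intervalIntegral.integral_add_adjacent_intervals (ii_th hφ a c)
      (ii_th hφ c b)).symm
  have ii1 : ∀ u v : ℝ, IntervalIntegrable (fun x => 1 - th (rd φ x) ^ 2) volume u v := by
    intro u v
    exact IntervalIntegrable.sub (by simp) (ii_th2 hφ u v)
  have s4 : ∫ x in a..b, (1 - th (rd φ x) ^ 2) =
      (∫ x in a..c, (1 - th (rd φ x) ^ 2)) + ∫ x in c..b, (1 - th (rd φ x) ^ 2) :=
    (intervalIntegral.integral_add_adjacent_intervals (ii1 a c) (ii1 c b)).symm
  have s5 : ∫ x in a..b, (1 - th (rd φ x) ^ 2) = (b - a) - ∫ x in a..b, th (rd φ x) ^ 2 := by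
    rw [intervalIntegral.integral_sub (by simp) (ii_th2 hφ a b)]
    simp
  have hA0 : 0 ≤ ∫ x in a..c, (1 - th (rd φ x) ^ 2) := by
    apply intervalIntegral.integral_nonneg hc.1
    intro x _
    linarith [th_sq_le_one (rd φ x)]
  have hB0 : 0 ≤ ∫ x in c..b, (1 - th (rd φ x) ^ 2) := by
    apply intervalIntegral.integral_nonneg hc.2
    intro x _
    linarith [th_sq_le_one (rd φ x)]
  set w := b - a with hw
  have hwpos : 0 < w := by rw [hw]; linarith
  -- Cauchy–Schwarz type bound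
  set k := 2 * φ c / w with hk
  have hkw : k * w = 2 * φ c := by rw [hk]; field_simp
  have cs : 2 * k * (∫ x in a..b, th (rd φ x)) - k ^ 2 * w ≤ ∫ x in a..b, th (rd φ x) ^ 2 := by
    have h1 : 0 ≤ ∫ x in a..b, (th (rd φ x) - k) ^ 2 := by
      apply intervalIntegral.integral_nonneg hab
      intro x _
      positivity
    have h2 : ∫ x in a..b, (th (rd φ x) - k) ^ 2 =
        (∫ x in a..b, th (rd φ x) ^ 2) - 2 * k * (∫ x in a..b, th (rd φ x)) + k ^ 2 * w := by
      have e : (fun x => (th (rd φ x) - k) ^ 2) =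
          fun x => (th (rd φ x) ^ 2 - 2 * k * th (rd φ x)) + k ^ 2 := by
        ext x; ring
      rw [e, intervalIntegral.integral_add ((ii_th2 hφ a b).sub ((ii_th hφ a b).const_mul _))
        (by simp), intervalIntegral.integral_sub (ii_th2 hφ a b) ((ii_th hφ a b).const_mul _),
        intervalIntegral.integral_const_mul]
      simp [hw]
      ring
    linarith
  set A := ∫ x in a..c, (1 - th (rd φ x) ^ 2)
  set B := ∫ x in c..b, (1 - th (rd φ x) ^ 2)
  set T := ∫ x in a..b, th (rd φ x)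
  set S := ∫ x in a..b, th (rd φ x) ^ 2
  have hc1 := hc.1
  have hc2 := hc.2
  have t1 : (c - a) / 4 * A ≤ w / 4 * A := by
    apply mul_le_mul_of_nonneg_right _ hA0
    rw [hw]; linarith
  have t2 : (b - c) / 4 * B ≤ w / 4 * B := by
    apply mul_le_mul_of_nonneg_right _ hB0
    rw [hw]; linarith
  have t3 : w / 2 * (w - S) ≤ w / 2 * (w - (2 * k * T - k ^ 2 * w)) := by
    apply mul_le_mul_of_nonneg_left _ (by positivity)
    linarith
  have t4 : w / 2 * (w - (2 * k * T - k ^ 2 * w)) = w ^ 2 / 2 - (k * w) * T + (k * w) ^ 2 / 2 := by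
    ring
  rw [t4, hkw] at t3
  rw [s0, s1, s2, l1, r1]
  have : A + B = w - S := by rw [← s4, s5]
  have t5 : w / 4 * A + w / 4 * B = w / 4 * (w - S) := by rw [← this]; ring
  have t6 : φ c * (∫ x in a..c, th (rd φ x)) + φ c * (∫ x in c..b, th (rd φ x)) = φ c * T := by
    rw [s3]; ring
  nlinarith

end MP_e9cb08
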