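import Pool.Agent.Work.MP_e9cb08_gt.Facet
import Pool.Agent.Work.MP_e9cb08_gt.Planar

/-!
# The inequality on slices of a polytope
-/

set_option linter.unusedSectionVars false

namespace MP_e9cb08

open MeasureTheory Set Module
open scoped InnerProductSpace RealInnerProductSpace ENNReal

variable {V : Type*} [NormedAddCommGroup V] [InnerProductSpace ℝ V] [FiniteDimensional ℝ V]
  [MeasurableSpace V] [BorelSpace V]

/-- the boundary density -/
noncomputable def bdF (h : V → ℝ) (z : V) : ℝ≥0∞ := ENNReal.ofReal (‖z‖ ^ 2 + h z ^ 2)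

/-- the bulk density in direction `e` -/
noncomputable def bulkG (h : V → ℝ) (e z : V) : ℝ≥0∞ :=
  ENNReal.ofReal (2 * h z * √(‖e‖ ^ 2 + (fderiv ℝ h z e) ^ 2))

/-- the polytope -/
def Poly {N : ℕ} (nrm : Fin N → V) (β : Fin N → ℝ) : Set V := {z | ∀ j, ⟪nrm j, z⟫_ℝ ≤ β j}

/-- the (disjoint) pieces of the facets -/
def Piece {N : ℕ} (nrm : Fin N → V) (β : Fin N → ℝ) (j : Fin N) : Set V :=
  {z | z ∈ Poly nrm β ∧ ⟪nrm j, z⟫_ℝ = β j ∧ ∀ i, i < j → ⟪nrm i, z⟫_ℝ < β i}

lemma continuous_of_convex {h : V → ℝ} (hc : ConvexOn ℝ univ h) : Continuous h :=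
  continuousOn_univ.mp (hc.continuousOn isOpen_univ)

lemma convex_line {h : V → ℝ} (hc : ConvexOn ℝ univ h) (e y : V) :
    ConvexOn ℝ univ (fun t : ℝ => h (t • e + y)) := by
  refine ⟨convex_univ, ?_⟩
  intro s _ t _ a b ha hb hab
  have := hc.2 (mem_univ (s • e + y)) (mem_univ (t • e + y)) ha hb hab
  have e1 : a • (s • e + y) + b • (t • e + y) = (a • s + b • t) • e + y := by
    have : y = (a + b) • y := by rw [hab, one_smul]
    simp only [smul_add, smul_smul, smul_eq_mul, add_smul]
    nth_rewrite 3 [this]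
    rw [add_smul]
    abel
  rw [e1] at this
  exact this

lemma fderiv_line_le {h : V → ℝ} (e y : V) (t : ℝ) :
    (fderiv ℝ h (t • e + y) e) ^ 2 ≤ rd (fun s : ℝ => h (s • e + y)) t ^ 2 := by
  by_cases hd : DifferentiableAt ℝ h (t • e + y)
  · have h1 := hd.hasFDerivAt
    have h2 : HasDerivAt (fun s : ℝ => s • e + y) e t := by
      simpa using ((hasDerivAt_id t).smul_const e).add_const y
    have h3 : HasDerivAt (fun s : ℝ => h (s • e + y)) (fderiv ℝ h (t • e + y) e) t :=
      h1.comp_hasDerivAt t h2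
    have h4 : rd (fun s : ℝ => h (s • e + y)) t = fderiv ℝ h (t • e + y) e :=
      h3.hasDerivWithinAt.derivWithin (uniqueDiffWithinAt_Ioi t)
    rw [h4]
  · rw [fderiv_zero_of_not_differentiableAt hd]
    simp
    positivity

lemma norm_sq_line {e : V} (he : ‖e‖ = 1) (t : ℝ) (y : Perp e) :
    ‖t • e + (y : V)‖ ^ 2 = t ^ 2 + ‖(y : V)‖ ^ 2 := by
  rw [norm_add_sq_real, inner_smul_left, inner_perp, norm_smul, he]
  simp

/-- the planar inequality in `ℝ≥0∞` form on a chord -/
lemma chord_le {h : V → ℝ} (hc : ConvexOn ℝ univ h) (h0 : ∀ z, 0 ≤ h z) {e : V} (he : ‖e‖ = 1)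
    (y : Perp e) {a b : ℝ} (hab : a ≤ b) :
    ∫⁻ t in Icc a b, bulkG h e (t • e + (y : V)) ≤
      bdF h (a • e + (y : V)) + bdF h (b • e + (y : V)) := by
  set φ : ℝ → ℝ := fun t => h (t • e + (y : V)) with hφ
  have hcφ : ConvexOn ℝ univ φ := convex_line hc e y
  have hφ0 : ∀ t, 0 ≤ φ t := fun t => h0 _
  have h1 : ∫⁻ t in Icc a b, bulkG h e (t • e + (y : V)) ≤
      ∫⁻ t in Icc a b, ENNReal.ofReal (2 * φ t * √(1 + rd φ t ^ 2)) := by
    apply lintegral_mono
    intro t
    unfold bulkG
    apply ENNReal.ofReal_le_ofReal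
    apply mul_le_mul_of_nonneg_left _ (by have := hφ0 t; simp only [hφ] at this; linarith)
    apply Real.sqrt_le_sqrt
    rw [he]
    have := fderiv_line_le (h := h) e y t
    linarith
  have hint : IntervalIntegrable (fun t => 2 * φ t * √(1 + rd φ t ^ 2)) volume a b := by
    have e1 : (fun t => 2 * φ t * √(1 + rd φ t ^ 2)) =
        fun t => 2 * φ t * |rd φ t| + 2 * (φ t * th (rd φ t)) := by
      ext t
      rw [sqrt_eq_abs_add_th]
      ring
    rw [e1]
    exact (ii_phi_abs hcφ a b).add ((ii_phi_th hcφ a b).const_mul 2)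
  have h2 : ∫⁻ t in Icc a b, ENNReal.ofReal (2 * φ t * √(1 + rd φ t ^ 2)) =
      ENNReal.ofReal (∫ t in a..b, 2 * φ t * √(1 + rd φ t ^ 2)) := by
    rw [intervalIntegral.integral_of_le hab, ← integral_Icc_eq_integral_Ioc,
      ofReal_integral_eq_lintegral_ofReal]
    · exact (intervalIntegrable_iff_integrableOn_Icc_of_le hab).1 hint
    · filter_upwards with t
      have := hφ0 t
      positivity
  have h3 := planar hcφ hφ0 hab
  refine h1.trans ?_
  rw [h2]
  unfold bdF
  rw [← ENNReal.ofReal_add (by positivity) (by positivity)]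
  apply ENNReal.ofReal_le_ofReal
  rw [norm_sq_line he, norm_sq_line he]
  have h4 : φ a = h (a • e + (y : V)) := rfl
  have h5 : φ b = h (b • e + (y : V)) := rfl
  rw [← h4, ← h5]
  nlinarith [sq_nonneg (a + b), sq_nonneg ‖(y : V)‖]

section poly

variable {N : ℕ} {nrm : Fin N → V} {β : Fin N → ℝ}

lemma isClosed_poly : IsClosed (Poly nrm β) := by
  have : Poly nrm β = ⋂ j, {z | ⟪nrm j, z⟫_ℝ ≤ β j} := by
    ext z; simp [Poly]
  rw [this]
  apply isClosed_iInter
  intro j
  exact isClosed_le (by fun_prop) continuous_const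

lemma convex_poly : Convex ℝ (Poly nrm β) := by
  intro x hx y hy a b ha hb hab j
  rw [inner_add_right, inner_smul_right, inner_smul_right]
  have h1 := mul_le_mul_of_nonneg_left (hx j) ha
  have h2 := mul_le_mul_of_nonneg_left (hy j) hb
  have h3 : β j = (a + b) * β j := by rw [hab, one_mul]
  rw [h3, add_mul]
  linarith

lemma measurableSet_piece (j : Fin N) : MeasurableSet (Piece nrm β j) := by
  have : Piece nrm β j = Poly nrm β ∩ ({z | ⟪nrm j, z⟫_ℝ = β j} ∩
      ⋂ i, ⋂ (_ : i < j), {z | ⟪nrm i, z⟫_ℝ < β i}) := by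
    ext z; simp [Piece]; tauto
  rw [this]
  apply isClosed_poly.measurableSet.inter
  apply MeasurableSet.inter
  · exact (isClosed_eq (by fun_prop) continuous_const).measurableSet
  · apply MeasurableSet.iInter
    intro i
    apply MeasurableSet.iInter
    intro _
    exact (isOpen_lt (by fun_prop) continuous_const).measurableSet

lemma piece_disjoint {i j : Fin N} (hij : i ≠ j) : Disjoint (Piece nrm β i) (Piece nrm β j) := by
  rw [Set.disjoint_left]
  intro z hi hj
  rcases lt_or_gt_of_ne hij with h | h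
  · have := hj.2.2 i h
    have h2 := hi.2.1
    linarith
  · have := hi.2.2 j h
    have h2 := hj.2.1
    linarith

/-- a point with an active constraint lies in a piece -/
lemma exists_piece {z : V} (hz : z ∈ Poly nrm β) (hact : ∃ j, ⟪nrm j, z⟫_ℝ = β j) :
    ∃ j, z ∈ Piece nrm β j := by
  classical
  obtain ⟨j, hj, hmin⟩ := WellFounded.has_min (r := (· < · : Fin N → Fin N → Prop))
    (wellFounded_lt) {j | ⟪nrm j, z⟫_ℝ = β j} hact
  refine ⟨j, hz, hj, ?_⟩
  intro i hi
  rcases (hz i).lt_or_eq with h | h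
  · exact h
  · exact absurd hi (hmin i h)

/-- an endpoint of a chord -/
lemma endpoint_piece {e : V} {y : Perp e}
    (hgood : ∀ j, ⟪nrm j, e⟫_ℝ = 0 → ⟪nrm j, (y : V)⟫_ℝ ≠ β j) {t : ℝ}
    (ht : t • e + (y : V) ∈ Poly nrm β)
    (hni : t ∉ interior {s : ℝ | s • e + (y : V) ∈ Poly nrm β}) :
    ∃ j, ⟪nrm j, e⟫_ℝ ≠ 0 ∧ t • e + (y : V) ∈ Piece nrm β j ∧
      lam e (nrm j) (β j) y = t • e + (y : V) := by
  have hact : ∃ j, ⟪nrm j, t • e + (y : V)⟫_ℝ = β j := by
    by_contra hcon
    push Not at hcon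
    apply hni
    have hopen : IsOpen (⋂ j, {s : ℝ | ⟪nrm j, s • e + (y : V)⟫_ℝ < β j}) := by
      apply isOpen_iInter_of_finite
      intro j
      exact isOpen_lt (by fun_prop) continuous_const
    rw [mem_interior]
    refine ⟨_, ?_, hopen, ?_⟩
    · intro s hs j
      rw [mem_iInter] at hs
      exact (hs j).le
    · rw [mem_iInter]
      intro j
      exact lt_of_le_of_ne (ht j) (hcon j)
  obtain ⟨j, hj⟩ := exists_piece ht hact
  have hne : ⟪nrm j, e⟫_ℝ ≠ 0 := by
    intro h0
    apply hgood j h0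
    have := hj.2.1
    rw [inner_add_right, inner_smul_right, h0] at this
    simpa using this
  exact ⟨j, hne, hj, lam_of_mem hne hj.2.1⟩

/-- the slice inequality -/
lemma slice_le {h : V → ℝ} (hc : ConvexOn ℝ univ h) (h0 : ∀ z, 0 ≤ h z) {e : V} (he : ‖e‖ = 1)
    (hbdd : Bornology.IsBounded (Poly nrm β)) (y : Perp e)
    (hgood : ∀ j, ⟪nrm j, e⟫_ℝ = 0 → ⟪nrm j, (y : V)⟫_ℝ ≠ β j) :
    ∫⁻ t : ℝ, (Poly nrm β).indicator (bulkG h e) (t • e + (y : V)) ≤
      ∑ j, (if ⟪nrm j, e⟫_ℝ = 0 then 0 else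
        (Piece nrm β j).indicator (bdF h) (lam e (nrm j) (β j) y)) := by
  classical
  set S : Set ℝ := {s : ℝ | s • e + (y : V) ∈ Poly nrm β} with hS
  have hSc : IsClosed S := isClosed_poly.preimage (by fun_prop : Continuous fun s : ℝ => s • e + (y : V))
  have hSb : Bornology.IsBounded S := by
    obtain ⟨R, hR⟩ := hbdd.subset_closedBall 0
    rw [isBounded_iff_forall_norm_le]
    refine ⟨R, ?_⟩
    intro s hs
    have h1 := hR hs
    rw [mem_closedBall_zero_iff] at h1
    have h2 := norm_sq_line he s y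
    have h3 : |s| ^ 2 ≤ ‖s • e + (y : V)‖ ^ 2 := by
      rw [h2, sq_abs]
      have := sq_nonneg ‖(y : V)‖
      linarith
    have h4 := abs_le_of_sq_le_sq h3 (norm_nonneg _)
    rw [abs_abs] at h4
    exact h4.trans h1
  have hind : ∀ t : ℝ, (Poly nrm β).indicator (bulkG h e) (t • e + (y : V)) =
      S.indicator (fun t => bulkG h e (t • e + (y : V))) t := by
    intro t
    rfl
  simp_rw [hind]
  rw [lintegral_indicator hSc.measurableSet]
  rcases S.eq_empty_or_nonempty with hemp | hne
  · rw [hemp]; simp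
  have hScomp : IsCompact S := Metric.isCompact_of_isClosed_isBounded hSc hSb
  have hSconv : Convex ℝ S := by
    intro s hs t ht a b ha hb hab
    have := convex_poly hs ht ha hb hab
    have e1 : a • (s • e + (y : V)) + b • (t • e + (y : V)) = (a • s + b • t) • e + (y : V) := by
      have h5 : (y : V) = (a + b) • (y : V) := by rw [hab, one_smul]
      simp only [smul_add, smul_smul, smul_eq_mul, add_smul]
      nth_rewrite 3 [h5]
      rw [add_smul]
      abel
    rw [e1] at this
    exact this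
  have hSI : S = Icc (sInf S) (sSup S) :=
    eq_Icc_of_connected_compact ⟨hne, hSconv.isPreconnected⟩ hScomp
  set a := sInf S with ha
  set b := sSup S with hb
  have hab : a ≤ b := by
    obtain ⟨s, hs⟩ := hne
    rw [hSI] at hs
    exact hs.1.trans hs.2
  rcases hab.eq_or_lt with heq | hlt
  · rw [hSI, heq]
    simp
  rw [hSI]
  have haS : a ∈ S := by rw [hSI]; exact left_mem_Icc.2 hab
  have hbS : b ∈ S := by rw [hSI]; exact right_mem_Icc.2 hab
  have hani : a ∉ interior S := by rw [hSI, interior_Icc]; simp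
  have hbni : b ∉ interior S := by rw [hSI, interior_Icc]; simp
  obtain ⟨i, hi1, hi2, hi3⟩ := endpoint_piece hgood haS hani
  obtain ⟨j, hj1, hj2, hj3⟩ := endpoint_piece hgood hbS hbni
  have hij : i ≠ j := by
    intro hij
    subst hij
    rw [hi3] at hj3
    have h5 : (a - b) • e = 0 := by
      rw [sub_smul]
      have := add_right_cancel hj3
      rw [this, sub_self]
    have h6 : e ≠ 0 := by intro h7; rw [h7] at he; simp at he
    have h7 := (smul_eq_zero.1 h5).resolve_right h6
    linarith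
  refine (chord_le hc h0 he y hab).trans ?_
  set f : Fin N → ℝ≥0∞ := fun j => (if ⟪nrm j, e⟫_ℝ = 0 then 0 else
        (Piece nrm β j).indicator (bdF h) (lam e (nrm j) (β j) y)) with hf
  have hfi : f i = bdF h (a • e + (y : V)) := by
    simp only [hf, if_neg hi1]
    rw [hi3, indicator_of_mem hi2]
  have hfj : f j = bdF h (b • e + (y : V)) := by
    simp only [hf, if_neg hj1]
    rw [hj3, indicator_of_mem hj2]
  rw [← hfi, ← hfj, ← Finset.sum_pair hij]
  exact Finset.sum_le_sum_of_subset (Finset.subset_univ _)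

lemma measurable_bdF {h : V → ℝ} (hc : Continuous h) : Measurable (bdF h) := by
  unfold bdF
  exact ENNReal.measurable_ofReal.comp (by fun_prop : Continuous _).measurable

lemma measurable_bulkG {h : V → ℝ} (hc : Continuous h) (e : V) : Measurable (bulkG h e) := by
  unfold bulkG
  apply ENNReal.measurable_ofReal.comp
  apply Measurable.mul
  · exact (continuous_const.mul hc).measurable
  · apply Real.continuous_sqrt.measurable.comp
    exact measurable_const.add ((measurable_fderiv_apply_const ℝ h e).pow_const 2)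

/-- **The directional inequality on a polytope.** -/
theorem dir_le {h : V → ℝ} (hc : ConvexOn ℝ univ h) (h0 : ∀ z, 0 ≤ h z) {e : V} (he : ‖e‖ = 1)
    (hn : ∀ j, ‖nrm j‖ = 1) (hbdd : Bornology.IsBounded (Poly nrm β)) :
    ∫⁻ z in Poly nrm β, bulkG h e z ≤
      ∑ j, ENNReal.ofReal |⟪nrm j, e⟫_ℝ| *
        ∫⁻ z in Piece nrm β j, bdF h z ∂μHE[finrank ℝ V - 1] := by
  have hcont := continuous_of_convex hc
  have hmeas : Measurable ((Poly nrm β).indicator (bulkG h e)) :=
    (measurable_bulkG hcont e).indicator isClosed_poly.measurableSet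
  rw [← lintegral_indicator isClosed_poly.measurableSet,
    ← (mp_decomp e he).lintegral_comp hmeas,
    lintegral_prod_symm' (fun p : ℝ × Perp e =>
      (Poly nrm β).indicator (bulkG h e) (p.1 • e + (p.2 : V)))
      (hmeas.comp (mp_decomp e he).measurable)]
  have hgood : ∀ᵐ y : Perp e, ∀ j, ⟪nrm j, e⟫_ℝ = 0 → ⟪nrm j, (y : V)⟫_ℝ ≠ β j := by
    rw [ae_all_iff]
    intro j
    by_cases hj : ⟪nrm j, e⟫_ℝ = 0
    · have := volume_bad (hn j) hj (β j)
      rw [ae_iff]
      simpa [hj] using this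
    · simp [hj]
  calc ∫⁻ y : Perp e, ∫⁻ t : ℝ, (Poly nrm β).indicator (bulkG h e) (t • e + (y : V))
      ≤ ∫⁻ y : Perp e, ∑ j, (if ⟪nrm j, e⟫_ℝ = 0 then 0 else
        (Piece nrm β j).indicator (bdF h) (lam e (nrm j) (β j) y)) := by
        apply lintegral_mono_ae
        filter_upwards [hgood] with y hy
        exact slice_le hc h0 he hbdd y hy
    _ = ∑ j, ∫⁻ y : Perp e, (if ⟪nrm j, e⟫_ℝ = 0 then 0 else
        (Piece nrm β j).indicator (bdF h) (lam e (nrm j) (β j) y)) := by
        apply lintegral_finsetSum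
        intro j _
        split_ifs
        · exact measurable_const
        · exact ((measurable_bdF hcont).indicator (measurableSet_piece j)).comp
            (continuous_lam e (nrm j) (β j)).measurable
    _ ≤ ∑ j, ENNReal.ofReal |⟪nrm j, e⟫_ℝ| *
        ∫⁻ z in Piece nrm β j, bdF h z ∂μHE[finrank ℝ V - 1] := by
        apply Finset.sum_le_sum
        intro j _
        split_ifs with hj
        · simp
        · apply le_of_eq
          exact lintegral_lam he (hn j) hj (β j) (measurableSet_piece j)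
            (fun z hz => hz.2.1) (measurable_bdF hcont)

end poly

end MP_e9cb08
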